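import Pool.Agent.H45.WB.Ptn

/-!
# All numbers of points, odd `q`

PROOF. From `2 ^ q ≤ q ^ (g - 4)` (`q ≥ 3`, so `g ≥ 5`, otherwise `q ^ 0 = 1 < 2 ^ q`): for `D ≥ 2 g + 1`,
`√(q ^ D) ≥ q ^ g √q ≥ q ^ 4 √q * 2 ^ q > (6 q + 2) 2 ^ q`. As in `exact_odd` of `H35/VQ/Exact2`:
`N = 2 A + 1`, `0 ≤ A ≤ q`: `D = 2 g + 1`, `ε = 1` on a set of `A` elements, `-1` elsewhere, `f` from
`exists_irred_pattern` (irreducible, so squarefree), `oddHyp'` and `oddHyp'_numPoints` (or `oddHyp`): one point at
infinity, `N = 2 A + 1`. `N = 2 A`, `1 ≤ A ≤ q + 1`: `D = 2 g + 2`, `f` monic, two points at infinity, `ε = 1` on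
`A - 1` elements. `N = 0`: `ν f`, `ν` a nonsquare (`exists_nonsq`), `f` monic of degree `2 g + 2` with `ε = 1`
everywhere: no affine points and none at infinity.
-/

namespace Pool.Agent.H45.WB

open Finset Polynomial Pool.Agent.H35.VQ

private theorem Fin_big (q g D : ℕ) (hq : 3 ≤ q) (hg5 : 5 ≤ g) (hg : 2 ^ q ≤ q ^ (g - 4))
    (hD : 2 * g + 1 ≤ D) : (2 : ℝ) ^ q * (6 * q + 2) < √((q : ℝ) ^ D) := by
  have hqr : (3 : ℝ) ≤ q := by exact_mod_cast hq
  have h1 : (2 : ℝ) ^ q ≤ (q : ℝ) ^ (g - 4) := by exact_mod_cast hg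
  have h2 : (6 * (q : ℝ) + 2) < (q : ℝ) ^ 4 := by
    have h3 : (q : ℝ) ^ 4 = q * (q * (q * q)) := by ring
    rw [h3]
    have h4 : (9 : ℝ) ≤ q * q := by nlinarith
    have h5 : (27 : ℝ) ≤ q * (q * q) := by nlinarith
    nlinarith
  have h3 : (q : ℝ) ^ g = (q : ℝ) ^ (g - 4) * (q : ℝ) ^ 4 := by
    rw [← pow_add]
    congr 1
    omega
  have h4 : (q : ℝ) ^ g ≤ √((q : ℝ) ^ D) := by
    apply Real.le_sqrt_of_sq_le
    rw [← pow_mul]
    exact pow_le_pow_right₀ (by linarith) (by omega)
  calc (2 : ℝ) ^ q * (6 * q + 2) < (2 : ℝ) ^ q * (q : ℝ) ^ 4 := by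
        exact mul_lt_mul_of_pos_left h2 (by positivity)
    _ ≤ (q : ℝ) ^ (g - 4) * (q : ℝ) ^ 4 := mul_le_mul_of_nonneg_right h1 (by positivity)
    _ = (q : ℝ) ^ g := h3.symm
    _ ≤ _ := h4

private theorem Fin_sum {k : Type} [Field k] [Fintype k] [DecidableEq k] (T : Finset k) (F : k → ℝ)
    (hF : ∀ x, F x = if x ∈ T then 1 else -1) : ∑ x, (F x + 1) = 2 * T.card := by
  have h9 : ∀ x : k, F x + 1 = if x ∈ T then 2 else 0 := by
    intro x
    rw [hF x]
    split_ifs <;> norm_num
  rw [Finset.sum_congr rfl fun x _ => h9 x, Finset.sum_ite_mem, Finset.univ_inter,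
    Finset.sum_const, nsmul_eq_mul, mul_comm]

theorem exact_odd_weil {k : Type} [Field k] [Fintype k] [DecidableEq k] (hk : (2 : k) ≠ 0) (g : ℕ)
    (hg : 2 ^ Fintype.card k ≤ Fintype.card k ^ (g - 4)) (N : ℕ)
    (hN : N ≤ 2 * Fintype.card k + 2) : ∃ C : Hyp k g, C.numPoints = N := by
  have hr : ringChar k ≠ 2 := by
    intro h
    apply hk
    have := ringChar.Nat.cast_ringChar (R := k)
    rw [h] at this
    exact_mod_cast this
  have hodd : Fintype.card k % 2 = 1 := FiniteField.odd_card_of_char_ne_two hr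
  have hq1 : 1 < Fintype.card k := Fintype.one_lt_card
  have hq3 : 3 ≤ Fintype.card k := by omega
  have hg5 : 5 ≤ g := by
    by_contra hc
    have h1 : g - 4 = 0 := by omega
    rw [h1, pow_zero] at hg
    have h2 : 1 < 2 ^ Fintype.card k := Nat.one_lt_two_pow (by omega)
    omega
  have key : ∀ D, 2 * g + 1 ≤ D → ∀ T : Finset k, ∃ f : k[X], f.Monic ∧ f.natDegree = D ∧
      Irreducible f ∧ ∀ x, chi (f.eval x) = if x ∈ T then 1 else -1 := by
    intro D hD T
    exact exists_irred_pattern k hr D (by omega) (Fin_big _ g D hq3 hg5 hg hD)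
      (fun x => if x ∈ T then 1 else -1) (fun x => by
        split_ifs
        · exact Or.inl rfl
        · exact Or.inr rfl)
  rcases Nat.even_or_odd' N with ⟨A, hA | hA⟩
  · rcases Nat.eq_zero_or_pos A with h0 | h0
    · -- no points
      obtain ⟨u, hu0, hu⟩ := exists_nonsq hr
      obtain ⟨f, hfm, hfd, hfi, hfv⟩ := key (2 * g + 2) (by omega) Finset.univ
      have hun : IsUnit (C u : k[X]) := Polynomial.isUnit_C.2 (isUnit_iff_ne_zero.2 hu0)
      have hirr : Irreducible (C u * f) := (irreducible_isUnit_mul hun).2 hfi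
      have hdeg : (C u * f).natDegree = 2 * g + 2 := by
        rw [Polynomial.natDegree_C_mul hu0, hfd]
      refine ⟨oddHyp' hk g (C u * f) (by omega) (by omega) hirr.squarefree, ?_⟩
      have h1 := oddHyp'_numPoints hk hr g (C u * f) (by omega) (by omega) hirr.squarefree
      have h2 : (C u * f).coeff (2 * g + 2) = u := by
        rw [Polynomial.coeff_C_mul, ← hfd, hfm.coeff_natDegree, mul_one]
      have hmul : ∀ a b : k, chi (a * b) = chi a * chi b := by
        intro a b
        unfold chi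
        rw [map_mul]
        push_cast
        ring
      have h3 : ∀ x : k, chi ((C u * f).eval x) + 1 = 0 := by
        intro x
        rw [Polynomial.eval_mul, Polynomial.eval_C, hmul, hu, hfv x, if_pos (Finset.mem_univ x)]
        norm_num
      rw [Finset.sum_congr rfl fun x _ => h3 x, h2, hu, Finset.sum_const_zero] at h1
      have h4 : ((oddHyp' hk g (C u * f) (by omega) (by omega) hirr.squarefree).numPoints : ℝ) = N := by
        rw [h1, hA, h0]
        norm_num
      exact_mod_cast h4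
    · obtain ⟨T, _, hT⟩ := Finset.exists_subset_card_eq (s := (Finset.univ : Finset k))
        (n := A - 1) (by rw [Finset.card_univ]; omega)
      obtain ⟨f, hfm, hfd, hfi, hfv⟩ := key (2 * g + 2) (by omega) T
      refine ⟨oddHyp' hk g f (by omega) (by omega) hfi.squarefree, ?_⟩
      have h1 := oddHyp'_numPoints hk hr g f (by omega) (by omega) hfi.squarefree
      have h2 : f.coeff (2 * g + 2) = 1 := by
        rw [← hfd, hfm.coeff_natDegree]
      rw [Fin_sum T (fun x => chi (f.eval x)) hfv, h2, chi_one, hT] at h1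
      have h4 : ((oddHyp' hk g f (by omega) (by omega) hfi.squarefree).numPoints : ℝ) = N := by
        rw [h1, hA, Nat.cast_sub h0]
        push_cast
        ring
      exact_mod_cast h4
  · obtain ⟨T, _, hT⟩ := Finset.exists_subset_card_eq (s := (Finset.univ : Finset k))
      (n := A) (by rw [Finset.card_univ]; omega)
    obtain ⟨f, hfm, hfd, hfi, hfv⟩ := key (2 * g + 1) (by omega) T
    refine ⟨oddHyp' hk g f (by omega) (by omega) hfi.squarefree, ?_⟩
    have h1 := oddHyp'_numPoints hk hr g f (by omega) (by omega) hfi.squarefree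
    have h2 : f.coeff (2 * g + 2) = 0 := Polynomial.coeff_eq_zero_of_natDegree_lt (by omega)
    rw [Fin_sum T (fun x => chi (f.eval x)) hfv, h2, chi_zero, hT] at h1
    have h4 : ((oddHyp' hk g f (by omega) (by omega) hfi.squarefree).numPoints : ℝ) = N := by
      rw [h1, hA]
      push_cast
      ring
    exact_mod_cast h4

end Pool.Agent.H45.WB
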