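import Pool.Agent.H45.WB.Step

/-!
# The bound for character sums

PROOF. `Q = card K ≥ 64 (m + 1) ^ 2`, `m = natDegree f`. First, `f.eval c ≠ 0` for some `c` (`m < Q`); replace `f`
by `f.comp (X + C c)`: same degree, squarefree, same sum (translation), and value `≠ 0` at `0`.
Parameters: `t = Nat.sqrt Q`, `u = t / 2`, `l = 2 u`, `J = u + 2 m`, `B = (Q - m) / 2`. Then `t ≥ 16`, `u ≥ 8`,
`4 u ^ 2 ≤ Q`, `√Q ≤ t + 1 ≤ 2 u + 2 ≤ 3 u`-ish (so `Q ≤ 3 u √Q`), `2 B ≥ Q - m - 1`, and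
`2 J B - l (B + l m + J) = 4 m B - 2 u (2 u m + u + 2 m) ≥ 2 m (Q - m - 1) - (2 m + 1) Q / 2 - 4 u m > 0`, since
`m Q - Q / 2 ≥ m Q / 2` and `Q / 2 > 2 m + 2 + 4 u` (`4 u ≤ 2 √Q`). `stepanov` gives, dividing by `l = 2 u`,
`|S_a| ≤ m + (B + m Q / 2) / (2 u) + (u + 2 m) Q / (2 u) ≤ Q / 2 + m + (Q / u) ((1 + m) / 4 + m)
≤ Q / 2 + m + (3 m / 2) (3 √Q) ≤ Q / 2 + 5 m √Q` (`√Q ≥ 16`), `a = ±1`. (`Q / u ≤ 3 √Q` since `√Q ≤ 3 u`.)
Now `quadraticChar K z = 1` iff `z ^ (Q / 2) = 1`, `= -1` iff `z ^ (Q / 2) = -1` (`z ≠ 0`)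
(`quadraticChar_eq_pow_of_char_ne_two'`, `FiniteField.pow_dichotomy`). So the sum is `|S_1| - |S_(-1)|`,
`|S_1| + |S_(-1)| + |zeros| = Q`, `|zeros| ≤ m`, and therefore its absolute value is at most
`2 (Q / 2 + 5 m √Q) - Q + m ≤ 11 m √Q`.
-/

namespace Pool.Agent.H45.WB

open Finset Polynomial

variable {K : Type} [Field K] [Fintype K] [DecidableEq K]

omit [Fintype K] [DecidableEq K] in
private theorem chs_sep (f : K[X]) (hf : f.Separable) (c : K) : (f.comp (X + C c)).Separable := by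
  have h : IsCoprime ((compRingHom (X + C c : K[X])) f) ((compRingHom (X + C c : K[X])) (derivative f)) :=
    IsCoprime.map hf (compRingHom (X + C c : K[X]))
  have h2 : derivative (f.comp (X + C c)) = (derivative f).comp (X + C c) := by
    rw [derivative_comp]
    simp
  rw [Separable, h2]
  exact h

/-- the arithmetic of the parameters -/
private theorem chs_par (Q m u B : ℕ) (hm : 1 ≤ m) (hQ : 64 * (m + 1) ^ 2 ≤ Q) (hu : 8 ≤ u)
    (hu2 : 4 * u ^ 2 ≤ Q) (hB1 : Q ≤ 2 * B + m + 1) :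
    2 * u * (B + 2 * u * m + (u + 2 * m)) < 2 * (u + 2 * m) * B := by
  have h1 : 32 * u ≤ Q := by nlinarith
  have h2 : 8 * u + 4 * m + 4 < Q := by nlinarith
  have h3 : 4 * u ^ 2 * m ≤ Q * m := Nat.mul_le_mul_right m hu2
  have h4 : m * (8 * u + 4 * m + 4) < m * Q := (Nat.mul_lt_mul_left (by omega)).2 h2
  have h5 : m * Q ≤ m * (2 * B + m + 1) := Nat.mul_le_mul_left m hB1
  have h6 : Q ≤ m * Q := Nat.le_mul_of_pos_left Q hm
  nlinarith

private theorem chs_one (hodd : ringChar K ≠ 2) (f : K[X]) (hf : Squarefree f)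
    (hm : 1 ≤ f.natDegree) (h0 : f.eval 0 ≠ 0) (hQ : 64 * (f.natDegree + 1) ^ 2 ≤ Fintype.card K)
    (a : K) (ha : a = 1 ∨ a = -1) :
    ((Finset.univ.filter fun x : K => (f.eval x) ^ (Fintype.card K / 2) = a).card : ℝ) ≤
      (Fintype.card K : ℝ) / 2 + 5 * f.natDegree * √(Fintype.card K : ℝ) := by
  have hQodd : Odd (Fintype.card K) := by
    have := FiniteField.odd_card_of_char_ne_two hodd
    exact Nat.odd_iff.2 this
  set Q := Fintype.card K with hQdef
  set m := f.natDegree with hmdef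
  set t := Nat.sqrt Q with ht
  set u := t / 2 with hu
  have ht1 : 8 * (m + 1) ≤ t := by
    rw [ht, Nat.le_sqrt]
    nlinarith
  have hu8 : 8 ≤ u := by omega
  have htt : t * t ≤ Q := Nat.sqrt_le Q
  have htu : 2 * u ≤ t := by omega
  have htu' : t + 1 ≤ 2 * u + 2 := by omega
  have hu2 : 4 * u ^ 2 ≤ Q := by nlinarith
  have hQt : Q < (t + 1) * (t + 1) := Nat.lt_succ_sqrt Q
  have hmQ : m + 2 ≤ Q := by nlinarith
  have hl : 2 * u ≤ Q := by nlinarith
  obtain ⟨B, hB⟩ : ∃ B, B = (Q - m) / 2 := ⟨_, rfl⟩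
  have hB1 : Q ≤ 2 * B + m + 1 := by omega
  have hB2 : 2 * B + m ≤ Q := by omega
  have hB3 : 1 ≤ B := by omega
  have hst := stepanov hQodd f hf hm h0 a ha B (u + 2 * m) (2 * u) hB3 hB2 hl
    (chs_par Q m u B hm hQ hu8 hu2 hB1)
  set N := (Finset.univ.filter fun x : K => (f.eval x) ^ (Q / 2) = a).card with hN
  have hst' : (2 * u : ℝ) * N ≤ 2 * u * m + B + ((Q / 2 : ℕ) : ℝ) * m + (u + 2 * m) * Q := by
    exact_mod_cast hst
  have hBr : (B : ℝ) ≤ Q / 2 := by
    have : (2 * B + m : ℝ) ≤ Q := by exact_mod_cast hB2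
    have : (0 : ℝ) ≤ m := Nat.cast_nonneg m
    linarith
  have hQ2 : ((Q / 2 : ℕ) : ℝ) ≤ Q / 2 := Nat.cast_div_le
  have hm1 : (1 : ℝ) ≤ m := by exact_mod_cast hm
  have hu8' : (8 : ℝ) ≤ u := by exact_mod_cast hu8
  have hs0 : 0 ≤ √(Q : ℝ) := Real.sqrt_nonneg _
  have hsq : √(Q : ℝ) * √(Q : ℝ) = Q := Real.mul_self_sqrt (Nat.cast_nonneg Q)
  have hs16 : 16 ≤ √(Q : ℝ) := by
    apply Real.le_sqrt_of_sq_le
    have : (256 : ℕ) ≤ Q := by nlinarith
    have : (256 : ℝ) ≤ Q := by exact_mod_cast this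
    linarith
  have hs3 : √(Q : ℝ) ≤ 3 * u := by
    apply Real.sqrt_le_iff.2
    refine ⟨by linarith, ?_⟩
    have h1 : (Q : ℝ) < (t + 1) * (t + 1) := by exact_mod_cast hQt
    have h2 : (t + 1 : ℝ) ≤ 2 * u + 2 := by exact_mod_cast htu'
    have h3 : (0 : ℝ) ≤ t := Nat.cast_nonneg t
    nlinarith
  have hQu : (Q : ℝ) ≤ 3 * u * √(Q : ℝ) := by
    calc (Q : ℝ) = √(Q : ℝ) * √(Q : ℝ) := hsq.symm
      _ ≤ (3 * u) * √(Q : ℝ) := mul_le_mul_of_nonneg_right hs3 hs0
  have hQ0 : (0 : ℝ) ≤ Q := Nat.cast_nonneg Q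
  have hkey : (2 * u : ℝ) * N ≤ (2 * u) * ((Q : ℝ) / 2 + 5 * m * √(Q : ℝ)) := by
    have e1 : ((Q / 2 : ℕ) : ℝ) * m ≤ (Q : ℝ) / 2 * m := mul_le_mul_of_nonneg_right hQ2 (by linarith)
    have e2 : (Q : ℝ) * m ≤ 3 * u * √(Q : ℝ) * m := mul_le_mul_of_nonneg_right hQu (by linarith)
    have e3 : (Q : ℝ) ≤ Q * m := by nlinarith
    have e4 : 16 * (u * m : ℝ) ≤ √(Q : ℝ) * (u * m) := mul_le_mul_of_nonneg_right hs16 (by positivity)
    nlinarith
  exact le_of_mul_le_mul_left hkey (by linarith)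

private theorem chs_zero (hodd : ringChar K ≠ 2) (f : K[X]) (hf : Squarefree f)
    (hm : 1 ≤ f.natDegree) (h0 : f.eval 0 ≠ 0) (hQ : 64 * (f.natDegree + 1) ^ 2 ≤ Fintype.card K) :
    |∑ x : K, ((quadraticChar K (f.eval x) : ℤ) : ℝ)| ≤
      11 * f.natDegree * √(Fintype.card K : ℝ) := by
  have hf0 : f ≠ 0 := hf.ne_zero
  have h1 := chs_one hodd f hf hm h0 hQ 1 (Or.inl rfl)
  have h2 := chs_one hodd f hf hm h0 hQ (-1) (Or.inr rfl)
  set S1 := Finset.univ.filter fun x : K => (f.eval x) ^ (Fintype.card K / 2) = 1 with hS1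
  set S2 := Finset.univ.filter fun x : K => (f.eval x) ^ (Fintype.card K / 2) = -1 with hS2
  set Z := Finset.univ.filter fun x : K => f.eval x = 0 with hZ
  have hQ256 : 256 ≤ Fintype.card K := by nlinarith
  have hhalf : Fintype.card K / 2 ≠ 0 := by omega
  have hne : (1 : K) ≠ -1 := by
    intro h
    apply hodd
    apply CharP.ringChar_of_prime_eq_zero Nat.prime_two
    have h3 : (1 : K) + 1 = 0 := by
      nth_rewrite 1 [h]
      ring
    rw [Nat.cast_two]
    rw [← h3]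
    norm_num
  have hval : ∀ x : K, ((quadraticChar K (f.eval x) : ℤ) : ℝ) =
      (if (f.eval x) ^ (Fintype.card K / 2) = 1 then 1 else 0) -
        (if (f.eval x) ^ (Fintype.card K / 2) = -1 then 1 else 0) := by
    intro x
    by_cases hx : f.eval x = 0
    · rw [hx, quadraticChar_zero, zero_pow hhalf, if_neg (zero_ne_one), if_neg]
      · norm_num
      · intro h
        have := neg_eq_zero.1 h.symm
        exact one_ne_zero this
    · rw [quadraticChar_eq_pow_of_char_ne_two hodd hx]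
      rcases FiniteField.pow_dichotomy hodd hx with h | h
      · rw [h, if_pos rfl, if_pos rfl, if_neg hne]
        norm_num
      · rw [h, if_neg hne.symm, if_neg hne.symm, if_pos rfl]
        norm_num
  have hsum : ∑ x : K, ((quadraticChar K (f.eval x) : ℤ) : ℝ) = (S1.card : ℝ) - S2.card := by
    rw [Finset.sum_congr rfl fun x _ => hval x, Finset.sum_sub_distrib, hS1, hS2,
      Finset.card_filter, Finset.card_filter]
    push_cast
    rfl
  have hone : ∀ x : K, (1 : ℝ) = (if (f.eval x) ^ (Fintype.card K / 2) = 1 then 1 else 0) +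
        (if (f.eval x) ^ (Fintype.card K / 2) = -1 then 1 else 0) +
        (if f.eval x = 0 then 1 else 0) := by
    intro x
    by_cases hx : f.eval x = 0
    · rw [hx, zero_pow hhalf, if_neg (zero_ne_one), if_neg, if_pos rfl]
      · norm_num
      · intro h
        have := neg_eq_zero.1 h.symm
        exact one_ne_zero this
    · rcases FiniteField.pow_dichotomy hodd hx with h | h
      · rw [h, if_pos rfl, if_neg hne, if_neg hx]
        norm_num
      · rw [h, if_neg hne.symm, if_pos rfl, if_neg hx]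
        norm_num
  have htot : (Fintype.card K : ℝ) = (S1.card : ℝ) + S2.card + Z.card := by
    have : ((Fintype.card K : ℕ) : ℝ) = ∑ _x : K, (1 : ℝ) := by simp
    rw [this, Finset.sum_congr rfl fun x _ => hone x, Finset.sum_add_distrib,
      Finset.sum_add_distrib, hS1, hS2, hZ, Finset.card_filter, Finset.card_filter,
      Finset.card_filter]
    push_cast
    rfl
  have hZc : (Z.card : ℝ) ≤ f.natDegree := by
    have : Z ⊆ f.roots.toFinset := by
      intro x hx
      rw [Multiset.mem_toFinset, mem_roots hf0]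
      exact (Finset.mem_filter.1 hx).2
    have h3 : Z.card ≤ f.natDegree :=
      (Finset.card_le_card this).trans ((Multiset.toFinset_card_le _).trans (card_roots' f))
    exact_mod_cast h3
  have hs16 : 16 ≤ √(Fintype.card K : ℝ) := by
    apply Real.le_sqrt_of_sq_le
    have : (256 : ℝ) ≤ Fintype.card K := by exact_mod_cast hQ256
    linarith
  have hm0 : (0 : ℝ) ≤ f.natDegree := Nat.cast_nonneg _
  have hms : (f.natDegree : ℝ) ≤ f.natDegree * √(Fintype.card K : ℝ) := by nlinarith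
  have hZ0 : (0 : ℝ) ≤ Z.card := Nat.cast_nonneg _
  rw [hsum, abs_le]
  constructor <;> nlinarith

theorem char_sum (hodd : ringChar K ≠ 2) (f : K[X]) (hf : Squarefree f) (hm : 1 ≤ f.natDegree)
    (hQ : 64 * (f.natDegree + 1) ^ 2 ≤ Fintype.card K) :
    |∑ x : K, ((quadraticChar K (f.eval x) : ℤ) : ℝ)| ≤
      11 * f.natDegree * √(Fintype.card K : ℝ) := by
  have hf0 : f ≠ 0 := hf.ne_zero
  obtain ⟨c, hc⟩ : ∃ c : K, f.eval c ≠ 0 := by
    by_contra hcon
    push Not at hcon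
    have h1 : (Finset.univ : Finset K) ⊆ f.roots.toFinset := by
      intro x _
      rw [Multiset.mem_toFinset, mem_roots hf0]
      exact hcon x
    have h2 : Fintype.card K ≤ f.natDegree :=
      (Finset.card_le_card h1).trans ((Multiset.toFinset_card_le _).trans (card_roots' f))
    nlinarith
  have hd : (f.comp (X + C c)).natDegree = f.natDegree := by
    rw [natDegree_comp, natDegree_X_add_C, mul_one]
  have hsq : Squarefree (f.comp (X + C c)) :=
    (chs_sep f (PerfectField.separable_iff_squarefree.2 hf) c).squarefree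
  have h := chs_zero hodd (f.comp (X + C c)) hsq (by rw [hd]; exact hm)
    (by rw [eval_comp]; simpa using hc) (by rw [hd]; exact hQ)
  rw [hd] at h
  have hs : ∑ x : K, ((quadraticChar K ((f.comp (X + C c)).eval x) : ℤ) : ℝ) =
      ∑ x : K, ((quadraticChar K (f.eval x) : ℤ) : ℝ) := by
    refine Fintype.sum_equiv (Equiv.addRight c) _ _ fun x => ?_
    rw [eval_comp]
    simp
  rw [hs] at h
  exact h

end Pool.Agent.H45.WB
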