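import Mathlib

/-!
# Hasse derivatives of powers

PROOF. `hasse_pow`: induction on `n`. If `i = n` (in particular `n = 0`) take `u = hasseDeriv i (f ^ n)`:
its degree is at most `n m - n = n (m - 1)` (`natDegree_hasseDeriv_le`). If `i < n`, write
`f ^ n = f ^ (n - 1) * f` and use `hasseDeriv_mul`: the term `(a, b)` of the antidiagonal of `i` is
`f ^ (n - 1 - a) * u_a * hasseDeriv b f` (`a ≤ i ≤ n - 1`). For `b = 0` it is `f ^ (n - i) * u_i`
(`a = i`, `hasseDeriv 0 f = f`). For `b ≥ 1`, `f ^ (n - 1 - a) = f ^ (n - i) * f ^ (b - 1)`, and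
`f ^ (b - 1) * u_a * hasseDeriv b f` has degree at most `(b - 1) m + a (m - 1) + (m - b) = i (m - 1)`
(if `b ≤ m`; for `b > m` the Hasse derivative of `f` is zero).
`hasse_lin`: with the `u_a` of `hasse_pow` put `P r = ∑_{(a, b) ∈ antidiagonal i} f ^ b * u_a * hasseDeriv b r`
(linear in `r`); `hasseDeriv_mul` and `f ^ (n - a) = f ^ (n - i) * f ^ b`. Degree: a term is zero if
`b > natDegree r`, otherwise its degree is at most `b m + a (m - 1) + natDegree r - b = natDegree r + i (m - 1)`.
-/

namespace Pool.Agent.H45.WB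

open Finset Polynomial

variable {K : Type} [Field K]

private lemma nat_aux {m a b i : ℕ} (hm : 1 ≤ m) (hab : a + b = i) :
    b * m + a * (m - 1) = b + i * (m - 1) := by
  obtain ⟨k, rfl⟩ : ∃ k, m = k + 1 := ⟨m - 1, by omega⟩
  subst hab
  simp only [Nat.add_sub_cancel]
  ring

theorem hasse_pow (f : K[X]) (m : ℕ) (hm : 1 ≤ m) (hf : f.natDegree ≤ m) (n i : ℕ) (hi : i ≤ n) :
    ∃ u : K[X], hasseDeriv i (f ^ n) = f ^ (n - i) * u ∧ u.natDegree ≤ i * (m - 1) := by
  have key : ∀ n : ℕ, ∃ u : K[X], hasseDeriv n (f ^ n) = f ^ (n - n) * u ∧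
      u.natDegree ≤ n * (m - 1) := by
    intro n
    refine ⟨hasseDeriv n (f ^ n), by simp, ?_⟩
    have h1 := natDegree_hasseDeriv_le (f ^ n) n
    have h2 : (f ^ n).natDegree ≤ n * m := natDegree_pow_le_of_le n hf
    rw [Nat.mul_sub, mul_one]
    omega
  induction n generalizing i with
  | zero =>
    obtain rfl : i = 0 := by omega
    exact key 0
  | succ n ih =>
    rcases Nat.lt_or_ge n i with h | h
    · obtain rfl : i = n + 1 := by omega
      exact key (n + 1)
    · have ih' : ∀ a : ℕ, ∃ u : K[X], a ≤ n →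
          (hasseDeriv a (f ^ n) = f ^ (n - a) * u ∧ u.natDegree ≤ a * (m - 1)) := by
        intro a
        by_cases ha : a ≤ n
        · obtain ⟨u, hu⟩ := ih a ha
          exact ⟨u, fun _ => hu⟩
        · exact ⟨0, fun h => absurd h ha⟩
      choose u hu using ih'
      refine ⟨∑ ab ∈ antidiagonal i,
        if ab.2 = 0 then u ab.1 else f ^ (ab.2 - 1) * u ab.1 * hasseDeriv ab.2 f, ?_, ?_⟩
      · rw [pow_succ, hasseDeriv_mul, mul_sum]
        refine sum_congr rfl fun ab hab => ?_
        obtain ⟨a, b⟩ := ab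
        have hab' : a + b = i := mem_antidiagonal.1 hab
        simp only
        rw [(hu a (by omega)).1]
        by_cases hb : b = 0
        · subst hb
          obtain rfl : a = i := by omega
          rw [if_pos rfl, hasseDeriv_zero', show n + 1 - a = (n - a) + 1 by omega, pow_succ]
          ring
        · rw [if_neg hb, show n - a = (n + 1 - i) + (b - 1) by omega, pow_add]
          ring
      · refine natDegree_sum_le_of_forall_le _ _ fun ab hab => ?_
        obtain ⟨a, b⟩ := ab
        have hab' : a + b = i := mem_antidiagonal.1 hab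
        simp only
        by_cases hb : b = 0
        · subst hb
          obtain rfl : a = i := by omega
          rw [if_pos rfl]
          exact (hu a (by omega)).2
        · rw [if_neg hb]
          rcases Nat.lt_or_ge f.natDegree b with hfb | hfb
          · rw [hasseDeriv_eq_zero_of_lt_natDegree f b hfb, mul_zero, natDegree_zero]
            exact Nat.zero_le _
          · have h1 : (f ^ (b - 1)).natDegree ≤ (b - 1) * m := natDegree_pow_le_of_le _ hf
            have h2 := (hu a (by omega)).2
            have h3 := natDegree_hasseDeriv_le f b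
            have h4 : (f ^ (b - 1) * u a * hasseDeriv b f).natDegree ≤
                (b - 1) * m + a * (m - 1) + (m - b) :=
              (natDegree_mul_le).trans (Nat.add_le_add
                ((natDegree_mul_le).trans (Nat.add_le_add h1 h2)) (h3.trans (by omega)))
            refine h4.trans (le_of_eq ?_)
            have h5 := nat_aux hm hab'
            have h6 : (b - 1) * m + m = b * m := by
              obtain ⟨k, rfl⟩ : ∃ k, b = k + 1 := ⟨b - 1, by omega⟩
              simp only [Nat.add_sub_cancel]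
              ring
            omega

theorem hasse_lin (f : K[X]) (m : ℕ) (hm : 1 ≤ m) (hf : f.natDegree ≤ m) (n i : ℕ) (hi : i ≤ n) :
    ∃ P : K[X] →ₗ[K] K[X], (∀ r, hasseDeriv i (f ^ n * r) = f ^ (n - i) * P r) ∧
      ∀ r, (P r).natDegree ≤ r.natDegree + i * (m - 1) := by
  have ih' : ∀ a : ℕ, ∃ u : K[X], a ≤ n →
      (hasseDeriv a (f ^ n) = f ^ (n - a) * u ∧ u.natDegree ≤ a * (m - 1)) := by
    intro a
    by_cases ha : a ≤ n
    · obtain ⟨u, hu⟩ := hasse_pow f m hm hf n a ha
      exact ⟨u, fun _ => hu⟩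
    · exact ⟨0, fun h => absurd h ha⟩
  choose u hu using ih'
  have hP : ∀ r : K[X], (∑ ab ∈ antidiagonal i,
      (LinearMap.mulLeft K (f ^ ab.2 * u ab.1)).comp (hasseDeriv ab.2 : K[X] →ₗ[K] K[X])) r =
        ∑ ab ∈ antidiagonal i, f ^ ab.2 * u ab.1 * hasseDeriv ab.2 r := by
    intro r
    rw [LinearMap.sum_apply]
    rfl
  refine ⟨∑ ab ∈ antidiagonal i,
    (LinearMap.mulLeft K (f ^ ab.2 * u ab.1)).comp (hasseDeriv ab.2 : K[X] →ₗ[K] K[X]),
    fun r => ?_, fun r => ?_⟩
  · rw [hP, hasseDeriv_mul, mul_sum]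
    refine sum_congr rfl fun ab hab => ?_
    obtain ⟨a, b⟩ := ab
    have hab' : a + b = i := mem_antidiagonal.1 hab
    simp only
    rw [(hu a (by omega)).1, show n - a = (n - i) + b by omega, pow_add]
    ring
  · rw [hP]
    refine natDegree_sum_le_of_forall_le _ _ fun ab hab => ?_
    obtain ⟨a, b⟩ := ab
    have hab' : a + b = i := mem_antidiagonal.1 hab
    simp only
    rcases Nat.lt_or_ge r.natDegree b with hfb | hfb
    · rw [hasseDeriv_eq_zero_of_lt_natDegree r b hfb, mul_zero, natDegree_zero]
      exact Nat.zero_le _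
    · have h1 : (f ^ b).natDegree ≤ b * m := natDegree_pow_le_of_le _ hf
      have h2 := (hu a (by omega)).2
      have h3 := natDegree_hasseDeriv_le r b
      have h4 : (f ^ b * u a * hasseDeriv b r).natDegree ≤
          b * m + a * (m - 1) + (r.natDegree - b) :=
        (natDegree_mul_le).trans (Nat.add_le_add
          ((natDegree_mul_le).trans (Nat.add_le_add h1 h2)) h3)
      refine h4.trans (le_of_eq ?_)
      have h5 := nat_aux hm hab'
      omega

end Pool.Agent.H45.WB
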