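import Mathlib

/-!
# Hasse derivatives and `X ^ Q`, order of vanishing

PROOF. `hasse_mul_card`: by `hasseDeriv_mul` it is enough that `hasseDeriv b (X ^ (j * Q)) = 0` for
`0 < b < Q`: it is `choose (j Q) b * X ^ (j Q - b)` (`hasseDeriv_monomial`/`hasseDeriv_X_pow`-type lemma) and the
binomial coefficient is zero in `K`: `Q = p ^ n` with `CharP K p` (`FiniteField.card`), and
`(X + C t) ^ (j Q) = (X ^ Q + C t ^ Q) ^ j`; comparing coefficients, `p ∣ choose (j p ^ n) b` for
`0 < b < p ^ n` (Lucas: `Choose.choose_modEq_choose_mod_mul_choose_div`-type lemmas, or use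
`Polynomial.taylor`: `taylor t (X ^ (j Q)) = (X ^ Q + C (t ^ Q)) ^ j`, whose coefficient of `X ^ b`,
`0 < b < Q`, is zero, and `taylor_coeff`).
`dvd_of_hasse`: `taylor x R` has zero coefficients of index `< l` (`taylor_coeff`), so `X ^ l ∣ taylor x R`
(`X_pow_dvd_iff`); transport back with `taylor (-x)` (`taylor_taylor`, it is a ring automorphism which
sends `X` to `X + C (-x)`), or `Polynomial.X_sub_C_pow_dvd_iff`.
-/

namespace Pool.Agent.H45.WB

open Finset Polynomial

variable {K : Type} [Field K]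

private theorem choose_card [Fintype K] (b j : ℕ) (hb : ¬ Fintype.card K ∣ b) :
    (((j * Fintype.card K).choose b : ℕ) : K) = 0 := by
  obtain ⟨p, hp⟩ := CharP.exists K
  obtain ⟨n, hpp, hn⟩ := FiniteField.card K p
  have : Fact p.Prime := ⟨hpp⟩
  have hQ : 0 < Fintype.card K := Fintype.card_pos
  have h1 : ((X : K[X]) + 1) ^ (j * Fintype.card K) = expand K (Fintype.card K) ((X + 1) ^ j) := by
    rw [map_pow, map_add, map_one, expand_X, mul_comm, pow_mul]
    congr 1
    rw [hn, add_pow_char_pow, one_pow]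
  rw [← coeff_X_add_one_pow K, h1, coeff_expand hQ, if_neg hb]

private theorem hasse_X_pow [Fintype K] (b j : ℕ) (hb : ¬ Fintype.card K ∣ b) :
    hasseDeriv b ((X : K[X]) ^ (j * Fintype.card K)) = 0 := by
  rw [X_pow_eq_monomial, hasseDeriv_monomial, choose_card b j hb, zero_mul, monomial_zero_right]

theorem hasse_mul_card [Fintype K] (A : K[X]) (i j : ℕ) (hi : i < Fintype.card K) :
    hasseDeriv i (A * X ^ (j * Fintype.card K)) = hasseDeriv i A * X ^ (j * Fintype.card K) := by
  rw [hasseDeriv_mul, Finset.sum_eq_single (i, 0)]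
  · rw [hasseDeriv_zero, LinearMap.id_apply]
  · rintro ⟨a, b⟩ hab hne
    rw [HasAntidiagonal.mem_antidiagonal] at hab
    have hab' : a + b = i := hab
    have hb : ¬ Fintype.card K ∣ b := by
      intro h
      rcases Nat.eq_zero_or_pos b with h0 | h0
      · apply hne
        rw [Prod.mk.injEq]
        omega
      · have := Nat.le_of_dvd h0 h
        omega
    show hasseDeriv a A * hasseDeriv b (X ^ (j * Fintype.card K)) = 0
    rw [hasse_X_pow b j hb, mul_zero]
  · intro h
    exact absurd (HasAntidiagonal.mem_antidiagonal.2 (by simp)) h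

theorem dvd_of_hasse (R : K[X]) (x : K) (l : ℕ) (h : ∀ i, i < l → (hasseDeriv i R).eval x = 0) :
    (X - C x) ^ l ∣ R := by
  rw [X_sub_C_pow_dvd_iff, ← taylor_apply, X_pow_dvd_iff]
  intro d hd
  rw [taylor_coeff]
  exact h d hd

end Pool.Agent.H45.WB
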