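import Mathlib

/-!
# Existence of the auxiliary polynomial: counting equations

PROOF. The space `V` of pairs of families `(r, s)` of polynomials of degree `< B` indexed by `Fin J`
has dimension `2 J B` (`degreeLT K B` has dimension `B`: `Polynomial.degreeLTEquiv`, `finrank_degreeLT`-type
lemma, `Module.finrank_pi`, `Module.finrank_prod`). The map
`(r, s) ↦ (i, e) ↦ coefficient of X ^ e in ∑ j, (P i (r j) + S i (s j)) * X ^ j`, `i < l`, `e < E + J`, is
linear with values in a space of dimension `l (E + J) < 2 J B`, so it has a nonzero element `(r, s)` in its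
kernel (`LinearMap.exists_ne_zero_of_finrank_lt`-type lemma: `LinearMap.ker_ne_bot_of_finrank_lt`). All the
coefficients of index `≥ E + J` vanish for degree reasons (`(P i (r j)).natDegree < E`), so the polynomials
are zero.
-/

namespace Pool.Agent.H45.WB

open Finset Polynomial

variable {K : Type} [Field K]

private noncomputable def linT (B J l E : ℕ) (P S : ℕ → K[X] →ₗ[K] K[X]) :
    ((Fin J → degreeLT K B) × (Fin J → degreeLT K B)) →ₗ[K] (Fin l → Fin (E + J) → K) :=
  LinearMap.pi fun i => LinearMap.pi fun e => (lcoeff K (e : ℕ)) ∘ₗ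
    (∑ j : Fin J, (LinearMap.mulRight K (X ^ (j : ℕ) : K[X])) ∘ₗ
      ((P i) ∘ₗ (degreeLT K B).subtype ∘ₗ (LinearMap.proj j) ∘ₗ (LinearMap.fst K _ _) +
        (S i) ∘ₗ (degreeLT K B).subtype ∘ₗ (LinearMap.proj j) ∘ₗ (LinearMap.snd K _ _)))

private lemma linT_apply (B J l E : ℕ) (P S : ℕ → K[X] →ₗ[K] K[X])
    (v : (Fin J → degreeLT K B) × (Fin J → degreeLT K B)) (i : Fin l) (e : Fin (E + J)) :
    linT B J l E P S v i e =
      (∑ j : Fin J, (P i (v.1 j : K[X]) + S i (v.2 j : K[X])) * X ^ (j : ℕ)).coeff e := by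
  simp only [linT, LinearMap.pi_apply, LinearMap.comp_apply, lcoeff_apply, LinearMap.sum_apply,
    LinearMap.mulRight_apply, LinearMap.add_apply, LinearMap.proj_apply, LinearMap.fst_apply,
    LinearMap.snd_apply, Submodule.subtype_apply]

theorem exists_aux (B J l E : ℕ) (P S : ℕ → K[X] →ₗ[K] K[X])
    (hP : ∀ i, i < l → ∀ r : K[X], r.degree < (B : WithBot ℕ) → (P i r).degree < (E : WithBot ℕ))
    (hS : ∀ i, i < l → ∀ r : K[X], r.degree < (B : WithBot ℕ) → (S i r).degree < (E : WithBot ℕ))
    (hc : l * (E + J) < 2 * J * B) :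
    ∃ r s : Fin J → K[X], (∀ j, (r j).degree < (B : WithBot ℕ) ∧ (s j).degree < (B : WithBot ℕ)) ∧
      (∃ j, r j ≠ 0 ∨ s j ≠ 0) ∧
      ∀ i, i < l → ∑ j : Fin J, (P i (r j) + S i (s j)) * X ^ (j : ℕ) = 0 := by
  have hfin : FiniteDimensional K (degreeLT K B) := FiniteDimensional.of_surjective
    (degreeLTEquiv K B).symm.toLinearMap (degreeLTEquiv K B).symm.surjective
  have hB : Module.finrank K (degreeLT K B) = B := by
    rw [LinearEquiv.finrank_eq (degreeLTEquiv K B), Module.finrank_fin_fun]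
  have h1 : Module.finrank K ((Fin J → degreeLT K B) × (Fin J → degreeLT K B)) = 2 * J * B := by
    rw [Module.finrank_prod, Module.finrank_pi_fintype]
    simp only [hB, sum_const, card_univ, Fintype.card_fin, smul_eq_mul]
    ring
  have h2 : Module.finrank K (Fin l → Fin (E + J) → K) = l * (E + J) := by
    rw [Module.finrank_pi_fintype]
    simp
  have h3 : LinearMap.ker (linT B J l E P S) ≠ ⊥ :=
    LinearMap.ker_ne_bot_of_finrank_lt (by rw [h1, h2]; exact hc)
  obtain ⟨v, hv, hv0⟩ := Submodule.exists_mem_ne_zero_of_ne_bot h3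
  rw [LinearMap.mem_ker] at hv
  refine ⟨fun j => (v.1 j : K[X]), fun j => (v.2 j : K[X]), fun j => ⟨mem_degreeLT.1 (v.1 j).2,
    mem_degreeLT.1 (v.2 j).2⟩, ?_, ?_⟩
  · by_contra hcon
    push Not at hcon
    apply hv0
    refine Prod.ext (funext fun j => Subtype.ext ?_) (funext fun j => Subtype.ext ?_)
    · exact (hcon j).1
    · exact (hcon j).2
  · intro i hi
    ext e
    rw [coeff_zero]
    rcases lt_or_ge e (E + J) with he | he
    · have h4 := congrFun (congrFun hv ⟨i, hi⟩) ⟨e, he⟩
      rw [linT_apply] at h4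
      exact h4
    · rw [finsetSum_coeff]
      refine sum_eq_zero fun j _ => ?_
      apply coeff_eq_zero_of_degree_lt
      have h5 : (P i (v.1 j : K[X]) + S i (v.2 j : K[X])).degree < (E : WithBot ℕ) :=
        lt_of_le_of_lt (degree_add_le _ _) (max_lt (hP i hi _ (mem_degreeLT.1 (v.1 j).2))
          (hS i hi _ (mem_degreeLT.1 (v.2 j).2)))
      rw [degree_mul, degree_X_pow]
      rcases eq_or_ne (P i (v.1 j : K[X]) + S i (v.2 j : K[X])) 0 with h0 | h0
      · rw [h0, degree_zero, WithBot.bot_add]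
        exact WithBot.bot_lt_coe e
      · rw [degree_eq_natDegree h0] at h5 ⊢
        have h6 : (P i (v.1 j : K[X]) + S i (v.2 j : K[X])).natDegree < E := by exact_mod_cast h5
        have h7 : (j : ℕ) < J := j.2
        have h8 : (P i (v.1 j : K[X]) + S i (v.2 j : K[X])).natDegree + (j : ℕ) < e := by omega
        exact_mod_cast h8

end Pool.Agent.H45.WB
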