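import Mathlib

/-!
# The auxiliary polynomial does not vanish

PROOF. `Q = card K`, odd, `g = f ^ (Q / 2)`, `g ^ 2 * f = f ^ Q` (`Q / 2 * 2 + 1 = Q`). Suppose not all `r j`, `s j`
vanish and let `j₀` be the least index with `(r j₀, s j₀) ≠ 0`. Dividing the relation by `X ^ (j₀ Q)`:
`X ^ Q ∣ r + s * g` with `r = r j₀`, `s = s j₀`. Hence `X ^ Q ∣ r ^ 2 - s ^ 2 * g ^ 2` and
`X ^ Q ∣ r ^ 2 * f - s ^ 2 * f ^ Q`. Now `f ^ Q = f.map id` expanded: `f ^ Q = ∑ C (f_i) ^ Q X ^ (i Q)`, so
`X ^ Q ∣ f ^ Q - C (f.eval 0)` (`FiniteField.expand_card`: `expand K Q f = f ^ Q`, and `expand` of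
`f - C (f.eval 0)`, divisible by `X`). So `X ^ Q ∣ r ^ 2 * f - C (f.eval 0) * s ^ 2`, a polynomial of degree `< Q`
(`2 (B - 1) + m < Q`): it is zero, `r ^ 2 * f = C (f.eval 0) * s ^ 2`. If `r = 0` then `s = 0`; so `r ≠ 0`, `s ≠ 0`.
But `f` is squarefree of degree `≥ 1`: take an irreducible factor `π` of `f`; its multiplicity in the left
side is odd (`2 v(r) + 1`), in the right side even. Contradiction. (Or: `f` is a square times a constant in
the fraction field, hence `f` divides .. any argument.)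
-/

namespace Pool.Agent.H45.WB

open Finset Polynomial

variable {K : Type} [Field K] [Fintype K]

omit [Fintype K] in
private theorem descent (f : K[X]) (hf : Squarefree f) (hm : 1 ≤ f.natDegree) (c : K) (hc : c ≠ 0) :
    ∀ (n : ℕ) (r s : K[X]), r.natDegree ≤ n → r ^ 2 * f = C c * s ^ 2 → r = 0 := by
  have hf0 : f ≠ 0 := by
    rintro rfl
    simp at hm
  have hcu : IsUnit (C c : K[X]) := isUnit_C.mpr (isUnit_iff_ne_zero.mpr hc)
  intro n
  induction n with
  | zero =>
    intro r s hr h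
    by_contra hr0
    have h1 : f ∣ s ^ 2 := by
      rw [← hcu.dvd_mul_left, ← h]
      exact Dvd.intro_left _ rfl
    rw [hf.dvd_pow_iff_dvd (by norm_num)] at h1
    obtain ⟨t, rfl⟩ := h1
    have h2 : r ^ 2 = C c * (f * t ^ 2) := by
      apply mul_right_cancel₀ hf0
      rw [h]
      ring
    have h3 : f ∣ r ^ 2 := ⟨C c * t ^ 2, by rw [h2]; ring⟩
    rw [hf.dvd_pow_iff_dvd (by norm_num)] at h3
    have h4 := natDegree_le_of_dvd h3 hr0
    omega
  | succ n ih =>
    intro r s hr h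
    by_contra hr0
    have h1 : f ∣ s ^ 2 := by
      rw [← hcu.dvd_mul_left, ← h]
      exact Dvd.intro_left _ rfl
    rw [hf.dvd_pow_iff_dvd (by norm_num)] at h1
    obtain ⟨t, rfl⟩ := h1
    have h2 : r ^ 2 = C c * (f * t ^ 2) := by
      apply mul_right_cancel₀ hf0
      rw [h]
      ring
    have h3 : f ∣ r ^ 2 := ⟨C c * t ^ 2, by rw [h2]; ring⟩
    rw [hf.dvd_pow_iff_dvd (by norm_num)] at h3
    obtain ⟨u, rfl⟩ := h3
    have hu0 : u ≠ 0 := fun hu => hr0 (by rw [hu, mul_zero])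
    apply hu0
    apply ih u t
    · rw [natDegree_mul hf0 hu0] at hr
      omega
    · apply mul_right_cancel₀ hf0
      have e1 : u ^ 2 * f * f = (f * u) ^ 2 := by ring
      rw [e1, h2]
      ring

private theorem core (hodd : Odd (Fintype.card K)) (f : K[X]) (hf : Squarefree f)
    (hm : 1 ≤ f.natDegree) (h0 : f.eval 0 ≠ 0) (B : ℕ) (hB : 2 * B + f.natDegree ≤ Fintype.card K)
    (r s : K[X]) (hr : r.degree < (B : WithBot ℕ)) (hs : s.degree < (B : WithBot ℕ))
    (h : X ^ Fintype.card K ∣ r + s * f ^ (Fintype.card K / 2)) : r = 0 ∧ s = 0 := by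
  rcases Nat.eq_zero_or_pos B with hB0 | hB1
  · subst hB0
    simp only [Nat.cast_zero] at hr hs
    exact ⟨degree_eq_bot.mp (Nat.WithBot.lt_zero_iff.mp hr), degree_eq_bot.mp (Nat.WithBot.lt_zero_iff.mp hs)⟩
  have hrn : r.natDegree < B := by
    by_cases h : r = 0
    · rw [h, natDegree_zero]; exact hB1
    · exact (natDegree_lt_iff_degree_lt h).mpr hr
  have hsn : s.natDegree < B := by
    by_cases h : s = 0
    · rw [h, natDegree_zero]; exact hB1
    · exact (natDegree_lt_iff_degree_lt h).mpr hs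
  have hQ : Fintype.card K / 2 * 2 + 1 = Fintype.card K := by
    obtain ⟨m, hm⟩ := hodd
    omega
  have h1 : X ^ Fintype.card K ∣ r ^ 2 * f - s ^ 2 * f ^ Fintype.card K := by
    have e : r ^ 2 * f - s ^ 2 * f ^ Fintype.card K =
        (r + s * f ^ (Fintype.card K / 2)) * ((r - s * f ^ (Fintype.card K / 2)) * f) := by
      have e2 : f ^ Fintype.card K = f ^ (Fintype.card K / 2) * f ^ (Fintype.card K / 2) * f := by
        conv_lhs => rw [← hQ]
        rw [pow_succ, mul_comm _ 2, two_mul, pow_add]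
      rw [e2]
      ring
    rw [e]
    exact Dvd.dvd.mul_right h _
  have h2 : X ^ Fintype.card K ∣ f ^ Fintype.card K - C (f.eval 0) := by
    rw [← FiniteField.expand_card f]
    obtain ⟨q, hq⟩ := X_dvd_sub_C (p := f)
    have e : expand K (Fintype.card K) f - C (f.eval 0) = expand K (Fintype.card K) (f - C (f.coeff 0)) := by
      rw [map_sub, expand_C, coeff_zero_eq_eval_zero]
    rw [e, hq, map_mul, expand_X]
    exact Dvd.intro _ rfl
  have h3 : X ^ Fintype.card K ∣ r ^ 2 * f - C (f.eval 0) * s ^ 2 := by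
    have e : r ^ 2 * f - C (f.eval 0) * s ^ 2 =
        (r ^ 2 * f - s ^ 2 * f ^ Fintype.card K) + s ^ 2 * (f ^ Fintype.card K - C (f.eval 0)) := by ring
    rw [e]
    exact dvd_add h1 (Dvd.dvd.mul_left h2 _)
  have h4 : r ^ 2 * f - C (f.eval 0) * s ^ 2 = 0 := by
    by_contra hne
    have hd := natDegree_le_of_dvd h3 hne
    rw [natDegree_X_pow] at hd
    have hle : (r ^ 2 * f - C (f.eval 0) * s ^ 2).natDegree ≤ 2 * (B - 1) + f.natDegree := by
      refine (natDegree_sub_le _ _).trans (max_le ?_ ?_)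
      · refine natDegree_mul_le.trans ?_
        have := natDegree_pow_le (p := r) (n := 2)
        omega
      · refine (natDegree_C_mul_le _ _).trans ?_
        have := natDegree_pow_le (p := s) (n := 2)
        omega
    omega
  have h5 : r ^ 2 * f = C (f.eval 0) * s ^ 2 := sub_eq_zero.mp h4
  have hr0 : r = 0 := descent f hf hm (f.eval 0) h0 r.natDegree r s le_rfl h5
  refine ⟨hr0, ?_⟩
  rw [hr0] at h5
  have h6 : C (f.eval 0) * s ^ 2 = 0 := by rw [← h5]; ring
  rcases mul_eq_zero.mp h6 with h7 | h7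
  · exact absurd (C_eq_zero.mp h7) h0
  · exact pow_eq_zero_iff (two_ne_zero) |>.mp h7

theorem nonvanish (hodd : Odd (Fintype.card K)) (f : K[X]) (hf : Squarefree f)
    (hm : 1 ≤ f.natDegree) (h0 : f.eval 0 ≠ 0) (B J : ℕ) (hB : 2 * B + f.natDegree ≤ Fintype.card K)
    (r s : Fin J → K[X]) (hr : ∀ j, (r j).degree < (B : WithBot ℕ) ∧ (s j).degree < (B : WithBot ℕ))
    (h : ∑ j : Fin J, (r j + s j * f ^ (Fintype.card K / 2)) * X ^ ((j : ℕ) * Fintype.card K) = 0) :
    ∀ j, r j = 0 ∧ s j = 0 := by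
  classical
  intro j
  induction j using WellFoundedLT.induction with
  | _ j ih =>
  apply core hodd f hf hm h0 B hB (r j) (s j) (hr j).1 (hr j).2
  have hsplit := Finset.add_sum_erase Finset.univ
    (fun j : Fin J => (r j + s j * f ^ (Fintype.card K / 2)) * X ^ ((j : ℕ) * Fintype.card K)) (Finset.mem_univ j)
  rw [h] at hsplit
  have hrest : X ^ (((j : ℕ) + 1) * Fintype.card K) ∣ ∑ i ∈ Finset.univ.erase j,
      (r i + s i * f ^ (Fintype.card K / 2)) * X ^ ((i : ℕ) * Fintype.card K) := by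
    apply Finset.dvd_sum
    intro i hi
    have hij : i ≠ j := (Finset.mem_erase.mp hi).1
    rcases lt_or_gt_of_ne hij with hlt | hgt
    · obtain ⟨h1, h2⟩ := ih i hlt
      rw [h1, h2]
      simp
    · refine Dvd.dvd.mul_left (pow_dvd_pow _ ?_) _
      exact Nat.mul_le_mul_right _ (by exact_mod_cast hgt)
  have hmain : X ^ (((j : ℕ) + 1) * Fintype.card K) ∣
      (r j + s j * f ^ (Fintype.card K / 2)) * X ^ ((j : ℕ) * Fintype.card K) := by
    have e : (r j + s j * f ^ (Fintype.card K / 2)) * X ^ ((j : ℕ) * Fintype.card K) =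
        -(∑ i ∈ Finset.univ.erase j, (r i + s i * f ^ (Fintype.card K / 2)) * X ^ ((i : ℕ) * Fintype.card K)) :=
      eq_neg_of_add_eq_zero_left hsplit
    rw [e]
    exact (dvd_neg).mpr hrest
  rw [Nat.succ_mul, pow_add, mul_comm (X ^ ((j : ℕ) * Fintype.card K))] at hmain
  exact (mul_dvd_mul_iff_right (pow_ne_zero _ X_ne_zero)).mp hmain

end Pool.Agent.H45.WB
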