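import Mathlib

/-!
# The quadratic character of the values of a minimal polynomial

PROOF. `q = card k`, `D = finrank k K`, `Q = card K = q ^ D`. Let `θ` have degree `D` over `k`. The elements
`θ ^ (q ^ i)`, `i < D`, are roots of `minpoly k θ` and distinct (otherwise `θ ^ (q ^ d) = θ` for some
`0 < d < D` and `θ` lies in a field with `q ^ d` elements, of degree `< D`), so over `K`
`minpoly k θ = ∏ i < D, (X - θ ^ (q ^ i))` and at `x ∈ k` the value is `∏ (x - θ) ^ (q ^ i) = (x - θ) ^ ((Q - 1) / (q - 1))`.
Or: `(minpoly k θ).eval x = Algebra.norm k (x - θ)` (the characteristic polynomial of `θ` is its minimal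
polynomial, `Algebra.charpoly_leftMulMatrix`/`PowerBasis` lemmas, `Algebra.PowerBasis.norm_gen_eq_coeff_zero_minpoly`
applied to `x - θ` and `minpoly` of a shift) and `algebraMap (norm z) = z ^ ((Q - 1) / (q - 1))`
(`FiniteField.algebraMap_norm_eq_pow`). Then `N ^ ((q - 1) / 2) = z ^ ((Q - 1) / 2)` in `K`, and the
quadratic characters are these powers (`quadraticChar_eq_pow_of_char_ne_two'`; compare `±1`, `0` through
`algebraMap`; if `θ ∈ k`, i.e. `D = 1`, the statement is trivial as well).
-/

namespace Pool.Agent.H45.WB

open Finset Polynomial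

variable {k K : Type} [Field k] [Fintype k] [DecidableEq k] [Field K] [Fintype K] [DecidableEq K]
  [Algebra k K]

private theorem nrm_eval (θ : K) (hθ : (minpoly k θ).natDegree = Module.finrank k K) (x : k) :
    (minpoly k θ).eval x = Algebra.norm k (algebraMap k K x - θ) := by
  classical
  have hint : IsIntegral k θ := Algebra.IsIntegral.isIntegral θ
  have h1 : Polynomial.aeval θ (LinearMap.charpoly (Algebra.lmul k K θ)) = 0 := by
    have h2 := LinearMap.aeval_self_charpoly (Algebra.lmul k K θ)
    have h3 : Polynomial.aeval (Algebra.lmul k K θ) (LinearMap.charpoly (Algebra.lmul k K θ)) =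
        Algebra.lmul k K (Polynomial.aeval θ (LinearMap.charpoly (Algebra.lmul k K θ))) :=
      Polynomial.aeval_algHom_apply (Algebra.lmul k K) θ _
    rw [h2] at h3
    have h4 := congrArg (fun f : K →ₗ[k] K => f 1) h3
    simpa using h4.symm
  have h2 : minpoly k θ = LinearMap.charpoly (Algebra.lmul k K θ) := by
    refine (Polynomial.eq_of_monic_of_dvd_of_natDegree_le (minpoly.monic hint)
      (LinearMap.charpoly_monic _) (minpoly.dvd k θ h1) ?_).symm
    rw [LinearMap.charpoly_natDegree, hθ]
  rw [h2, Algebra.norm_apply, LinearMap.charpoly_def, Matrix.charpoly,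
    ← LinearMap.det_toMatrix (Module.Free.chooseBasis k K)]
  rw [← Polynomial.coe_evalRingHom, RingHom.map_det]
  congr 1
  ext i j
  simp only [RingHom.mapMatrix_apply, Matrix.map_apply, Polynomial.coe_evalRingHom, map_sub,
    Matrix.sub_apply]
  rw [Matrix.charmatrix_apply]
  simp only [Polynomial.eval_sub, Polynomial.eval_C]
  congr 1
  have h5 : (Algebra.lmul k K) (algebraMap k K x) = x • (LinearMap.id : K →ₗ[k] K) := by
    ext y
    simp [Algebra.smul_def]
  have h6 : (LinearMap.toMatrix (Module.Free.chooseBasis k K) (Module.Free.chooseBasis k K))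
      ((Algebra.lmul k K) (algebraMap k K x)) = x • 1 := by
    rw [h5, map_smul, LinearMap.toMatrix_id]
  have h7 := congrFun (congrFun h6 i) j
  rw [h7]
  by_cases hij : i = j
  · subst hij
    simp
  · simp [hij]

theorem char_minpoly (hk : ringChar k ≠ 2) (θ : K)
    (hθ : (minpoly k θ).natDegree = Module.finrank k K) (x : k) :
    quadraticChar k ((minpoly k θ).eval x) = quadraticChar K (algebraMap k K x - θ) := by
  have hK : ringChar K ≠ 2 := by rwa [← Algebra.ringChar_eq k K]
  rw [nrm_eval θ hθ x]
  generalize algebraMap k K x - θ = z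
  have hq : Odd (Fintype.card k) := by
    have := FiniteField.odd_card_of_char_ne_two hk
    exact Nat.odd_iff.2 this
  have hQ : Odd (Fintype.card K) := by
    have := FiniteField.odd_card_of_char_ne_two hK
    exact Nat.odd_iff.2 this
  have hcard : Fintype.card K = Fintype.card k ^ Module.finrank k K := Module.card_eq_pow_finrank
  have hdvd : Fintype.card k - 1 ∣ Fintype.card K - 1 := by
    rw [hcard]
    simpa using Nat.sub_dvd_pow_sub_pow (Fintype.card k) 1 (Module.finrank k K)
  have h1 : (1 : ℕ) < Fintype.card k := Fintype.one_lt_card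
  have h2 := quadraticChar_eq_pow_of_char_ne_two' hk (Algebra.norm k z)
  have h3 := quadraticChar_eq_pow_of_char_ne_two' hK z
  have h4 : algebraMap k K (Algebra.norm k z) =
      z ^ ((Fintype.card K - 1) / (Fintype.card k - 1)) := by
    have := FiniteField.algebraMap_norm_eq_pow (K := k) (K' := K) (x := z)
    rwa [Nat.card_eq_fintype_card, Nat.card_eq_fintype_card] at this
  have h5 : ((quadraticChar k (Algebra.norm k z) : ℤ) : K) = ((quadraticChar K z : ℤ) : K) := by
    have h6 := congrArg (algebraMap k K) h2
    rw [map_intCast, map_pow, h4, ← pow_mul] at h6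
    rw [h6, h3]
    congr 1
    obtain ⟨a, ha⟩ := hq
    obtain ⟨b, hb⟩ := hQ
    obtain ⟨c, hc⟩ := hdvd
    have ha' : Fintype.card k - 1 = 2 * a := by omega
    have hb' : Fintype.card K - 1 = 2 * b := by omega
    have ha0 : 0 < 2 * a := by omega
    rw [hc, ha', Nat.mul_div_cancel_left c ha0]
    have e1 : Fintype.card k / 2 = a := by omega
    have e2 : Fintype.card K / 2 = b := by omega
    rw [e1, e2]
    rw [ha', hb'] at hc
    have e3 : 2 * b = 2 * (c * a) := by rw [hc]; ring
    omega
  have h7 := Int.cast_injOn_of_ringChar_ne_two hK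
  refine h7 ?_ ?_ h5
  · rcases quadraticChar_isQuadratic k (Algebra.norm k z) with h | h | h <;> rw [h] <;> simp
  · rcases quadraticChar_isQuadratic K z with h | h | h <;> rw [h] <;> simp

end Pool.Agent.H45.WB
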