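import Mathlib

/-!
# Elements of small degree

PROOF. An element whose degree `d` is not `D` satisfies `d ∣ D`, `d ≤ D / 2`, and is a root of
`X ^ (q ^ d) - X`; so there are at most `∑_{1 ≤ d ≤ D / 2} q ^ d ≤ (q / (q - 1)) q ^ (D / 2) ≤ 2 √Q` of them.
-/

namespace Pool.Agent.H45.WB

open Finset Polynomial

variable {k K : Type} [Field k] [Fintype k] [DecidableEq k] [Field K] [Fintype K] [DecidableEq K]
  [Algebra k K]

private theorem sml_roots {N : ℕ} (hN : 1 < N) :
    (Finset.univ.filter fun θ : K => θ ^ N = θ).card ≤ N := by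
  have h0 : (X ^ N - X : K[X]) ≠ 0 := FiniteField.X_pow_card_sub_X_ne_zero K hN
  have hd : (X ^ N - X : K[X]).natDegree = N := FiniteField.X_pow_card_sub_X_natDegree_eq K hN
  have hsub : (Finset.univ.filter fun θ : K => θ ^ N = θ) ⊆ (X ^ N - X : K[X]).roots.toFinset := by
    intro θ hθ
    rw [Multiset.mem_toFinset, mem_roots h0, IsRoot.def]
    simp [(Finset.mem_filter.1 hθ).2]
  calc _ ≤ (X ^ N - X : K[X]).roots.toFinset.card := Finset.card_le_card hsub
    _ ≤ Multiset.card (X ^ N - X : K[X]).roots := Multiset.toFinset_card_le _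
    _ ≤ (X ^ N - X : K[X]).natDegree := card_roots' _
    _ = N := hd

omit [DecidableEq k] [DecidableEq K] in
private theorem sml_pow (θ : K) : θ ^ Fintype.card k ^ (minpoly k θ).natDegree = θ := by
  have hfin : FiniteDimensional k K := Module.Finite.of_finite
  have hint : IsIntegral k θ := Algebra.IsIntegral.isIntegral θ
  have : Fintype (IntermediateField.adjoin k {θ}) := Fintype.ofFinite _
  have h1 := FiniteField.pow_card (⟨θ, IntermediateField.mem_adjoin_simple_self k θ⟩ :
    IntermediateField.adjoin k {θ})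
  rw [Module.card_eq_pow_finrank (K := k), IntermediateField.adjoin.finrank hint] at h1
  exact congrArg Subtype.val h1

private theorem sml_sum {q : ℕ} (hq : 2 ≤ q) (m : ℕ) : ∑ d ∈ Finset.Icc 1 m, q ^ d ≤ 2 * q ^ m := by
  induction m with
  | zero => simp
  | succ m ih =>
    rw [Finset.sum_Icc_succ_top (by omega)]
    have h1 : 2 * q ^ m ≤ q * q ^ m := Nat.mul_le_mul_right _ hq
    rw [pow_succ]
    nlinarith

omit [DecidableEq k] in
private theorem sml_nat : (Finset.univ.filter fun θ : K => (minpoly k θ).natDegree ≠ Module.finrank k K).card ≤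
    2 * Fintype.card k ^ (Module.finrank k K / 2) := by
  have hfin : FiniteDimensional k K := Module.Finite.of_finite
  have hq : 2 ≤ Fintype.card k := Fintype.one_lt_card
  have hsub : (Finset.univ.filter fun θ : K => (minpoly k θ).natDegree ≠ Module.finrank k K) ⊆
      (Finset.Icc 1 (Module.finrank k K / 2)).biUnion
        fun d => Finset.univ.filter fun θ : K => θ ^ Fintype.card k ^ d = θ := by
    intro θ hθ
    have h1 := (Finset.mem_filter.1 hθ).2
    have hint : IsIntegral k θ := Algebra.IsIntegral.isIntegral θ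
    have h2 : (minpoly k θ).natDegree ∣ Module.finrank k K := minpoly.degree_dvd hint
    have h3 : 0 < (minpoly k θ).natDegree := minpoly.natDegree_pos hint
    refine Finset.mem_biUnion.2 ⟨(minpoly k θ).natDegree, ?_, ?_⟩
    · rw [Finset.mem_Icc]
      refine ⟨h3, ?_⟩
      obtain ⟨c, hc⟩ := h2
      have hD : 0 < Module.finrank k K := Module.finrank_pos
      have hc0 : c ≠ 0 := by
        rintro rfl
        omega
      have hc1 : c ≠ 1 := by
        rintro rfl
        exact h1 (by rw [hc, mul_one])
      rw [Nat.le_div_iff_mul_le (by norm_num), hc]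
      exact Nat.mul_le_mul_left _ (by omega)
    · rw [Finset.mem_filter]
      exact ⟨Finset.mem_univ _, sml_pow θ⟩
  calc _ ≤ _ := Finset.card_le_card hsub
    _ ≤ ∑ d ∈ Finset.Icc 1 (Module.finrank k K / 2),
        (Finset.univ.filter fun θ : K => θ ^ Fintype.card k ^ d = θ).card := Finset.card_biUnion_le
    _ ≤ ∑ d ∈ Finset.Icc 1 (Module.finrank k K / 2), Fintype.card k ^ d := by
        apply Finset.sum_le_sum
        intro d hd
        apply sml_roots
        exact Nat.one_lt_pow (by have := (Finset.mem_Icc.1 hd).1; omega) (by omega)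
    _ ≤ _ := sml_sum hq _

theorem card_small :
    ((Finset.univ.filter fun θ : K => (minpoly k θ).natDegree ≠ Module.finrank k K).card : ℝ) ≤
      2 * √(Fintype.card K : ℝ) := by
  have h1 : (Finset.univ.filter fun θ : K => (minpoly k θ).natDegree ≠ Module.finrank k K).card ≤
    2 * Fintype.card k ^ (Module.finrank k K / 2) := sml_nat
  have h2 : ((Finset.univ.filter fun θ : K => (minpoly k θ).natDegree ≠ Module.finrank k K).card : ℝ) ≤
      2 * (Fintype.card k : ℝ) ^ (Module.finrank k K / 2) := by exact_mod_cast h1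
  refine h2.trans ?_
  apply mul_le_mul_of_nonneg_left _ (by norm_num)
  apply Real.le_sqrt_of_sq_le
  rw [Module.card_eq_pow_finrank (K := k) (V := K), ← pow_mul]
  push_cast
  apply pow_le_pow_right₀
  · have : 1 ≤ Fintype.card k := Fintype.card_pos
    exact_mod_cast this
  · exact Nat.div_mul_le_self _ _

end Pool.Agent.H45.WB
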