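import Pool.Agent.H45.WB.Chs
import Pool.Agent.H45.WB.Nrm
import Pool.Agent.H45.WB.Sml
import Pool.Agent.H35.VQ.Exact4

/-!
# Irreducible polynomials with prescribed quadratic characters at all points

PROOF. `q = card k`, `K` an extension of degree `D` (for instance `AdjoinRoot h`, `h` monic irreducible of
degree `D`, `exists_irred` in `H35/VQ/Exact3`), `Q = card K = q ^ D`, `√Q > 2 ^ q (6 q + 2)`. For `θ ∈ K`,
`A ⊆ k` let `h_A(θ) = ∏ x ∈ A, (x - θ)`, `f_A = ∏ x ∈ A, (C x - X)` in `K[X]`, squarefree of degree `|A|`.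
`∑ θ, ∏ x : k, (1 + ε x * χ_K (x - θ)) = ∑ A, (∏ x ∈ A, ε x) ∑ θ, χ_K (h_A θ)` (`Finset.prod_one_add`-type lemma).
`A = ∅` gives `Q`; for `A ≠ ∅`, `|∑ θ, χ_K (h_A θ)| ≤ 11 |A| √Q ≤ 11 q √Q` by `char_sum`
(`64 (q + 1) ^ 2 ≤ Q` by the hypothesis), and even `∑ A, |A| = q 2 ^ (q - 1)`, so the sum over `A ≠ ∅` is at most
`11 q 2 ^ (q - 1) √Q`. On the other side the product is `2 ^ q` if `χ_K (x - θ) = ε x` for all `x`, zero if
`θ ∉ k` otherwise, and at most `2 ^ (q - 1)` for the `q` elements `θ ∈ k` (one factor is `1`). Hence the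
number `G` of the `θ ∉ k` with the right pattern satisfies
`2 ^ q G ≥ Q - 11 q 2 ^ (q - 1) √Q - q 2 ^ (q - 1) ≥ Q - 6 q 2 ^ q √Q`, so
`G ≥ √Q (√Q / 2 ^ q - 6 q) > 2 √Q`, more than the number of elements of degree `≠ D` (`card_small`). For a
`θ` of degree `D` with the pattern, `f = minpoly k θ` is monic, irreducible, of degree `D`, and
`χ_k (f x) = χ_K (x - θ) = ε x` (`char_minpoly`). (If `D ≥ 2`, an element of degree `D` is not in `k`; patterns with
no zero value exclude `θ ∈ k` anyway.)
-/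

namespace Pool.Agent.H45.WB

open Finset Polynomial Pool.Agent.H35.VQ

private theorem ptn_chi_prod {K : Type} [Field K] [Fintype K] [DecidableEq K] {ι : Type} (s : Finset ι)
    (z : ι → K) : ∏ x ∈ s, chi (z x) = chi (∏ x ∈ s, z x) := by
  unfold chi
  rw [map_prod, Int.cast_prod]

private theorem ptn_chi_le {K : Type} [Field K] [Fintype K] [DecidableEq K] (a : K) : |chi a| ≤ 1 := by
  by_cases h : a = 0
  · rw [h, chi_zero]
    simp
  · rw [← sq_le_one_iff_abs_le_one, chi_sq h]

private theorem ptn_chi_cases {K : Type} [Field K] [Fintype K] [DecidableEq K] {a : K} (h : a ≠ 0) :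
    chi a = 1 ∨ chi a = -1 := by
  unfold chi
  rcases quadraticChar_dichotomy h with h1 | h1
  · left
    rw [h1]
    simp
  · right
    rw [h1]
    simp

private theorem ptn_sum_card (k : Type) [Fintype k] [DecidableEq k] :
    ∑ A : Finset k, (A.card : ℝ) = Fintype.card k * 2 ^ Fintype.card k / 2 := by
  have h1 : ∑ A : Finset k, (A.card : ℝ) = ∑ A : Finset k, ((Aᶜ).card : ℝ) :=
    (Equiv.sum_comp (Function.Involutive.toPerm (compl : Finset k → Finset k) compl_involutive)
      (fun A : Finset k => (A.card : ℝ))).symm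
  have h2 : ∀ A : Finset k, ((Aᶜ).card : ℝ) = Fintype.card k - A.card := by
    intro A
    rw [Finset.card_compl, Nat.cast_sub (Finset.card_le_univ A)]
  rw [Finset.sum_congr rfl fun A _ => h2 A, Finset.sum_sub_distrib] at h1
  rw [Finset.sum_const, Finset.card_univ, Fintype.card_finset, nsmul_eq_mul] at h1
  push_cast at h1
  linarith

section

variable {k K : Type} [Field k] [Fintype k] [DecidableEq k] [Field K] [Fintype K] [DecidableEq K]
  [Algebra k K]

private theorem ptn_char (hK : ringChar K ≠ 2) (hQ : 64 * (Fintype.card k + 1) ^ 2 ≤ Fintype.card K)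
    (A : Finset k) (hA : A.Nonempty) :
    |∑ θ : K, chi (∏ x ∈ A, (algebraMap k K x - θ))| ≤ 11 * A.card * √(Fintype.card K : ℝ) := by
  obtain ⟨f, hf⟩ : ∃ f : K[X], f = ∏ x ∈ A, (X - C (algebraMap k K x)) := ⟨_, rfl⟩
  have hsq : Squarefree f := by
    rw [hf]
    exact (separable_prod_X_sub_C_iff'.2 fun x _ y _ h => (algebraMap k K).injective h).squarefree
  have hdeg : f.natDegree = A.card := by
    rw [hf, natDegree_prod_of_monic _ _ fun x _ => monic_X_sub_C _]
    simp
  have hev : ∀ θ : K, ∏ x ∈ A, (algebraMap k K x - θ) = (-1) ^ A.card * f.eval θ := by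
    intro θ
    rw [hf, eval_prod]
    simp only [eval_sub, eval_X, eval_C]
    rw [← Finset.prod_const (-1 : K), ← Finset.prod_mul_distrib]
    exact Finset.prod_congr rfl fun x _ => by ring
  have h1 : ∑ θ : K, chi (∏ x ∈ A, (algebraMap k K x - θ)) =
      chi ((-1 : K) ^ A.card) * ∑ θ : K, chi (f.eval θ) := by
    rw [Finset.mul_sum]
    refine Finset.sum_congr rfl fun θ _ => ?_
    rw [hev]
    unfold chi
    rw [map_mul]
    push_cast
    ring
  have hcard : A.card ≤ Fintype.card k := Finset.card_le_univ A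
  have h2 := char_sum hK f hsq (by rw [hdeg]; exact hA.card_pos) (by
    rw [hdeg]
    refine le_trans ?_ hQ
    gcongr)
  rw [hdeg] at h2
  rw [h1, abs_mul]
  refine (mul_le_of_le_one_left (abs_nonneg _) (ptn_chi_le _)).trans ?_
  exact h2

private theorem ptn_lower (hK : ringChar K ≠ 2) (hQ : 64 * (Fintype.card k + 1) ^ 2 ≤ Fintype.card K)
    (ε : k → ℝ) (hε : ∀ x, ε x = 1 ∨ ε x = -1) :
    (Fintype.card K : ℝ) - 11 * (Fintype.card k * 2 ^ Fintype.card k / 2) * √(Fintype.card K : ℝ) ≤
      ∑ θ : K, ∏ x : k, (1 + ε x * chi (algebraMap k K x - θ)) := by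
  have h1 : ∑ θ : K, ∏ x : k, (1 + ε x * chi (algebraMap k K x - θ)) =
      ∑ A : Finset k, (∏ x ∈ A, ε x) * ∑ θ : K, chi (∏ x ∈ A, (algebraMap k K x - θ)) := by
    have h2 : ∀ θ : K, ∏ x : k, (1 + ε x * chi (algebraMap k K x - θ)) =
        ∑ A : Finset k, (∏ x ∈ A, ε x) * chi (∏ x ∈ A, (algebraMap k K x - θ)) := by
      intro θ
      rw [Finset.prod_one_add, Finset.powerset_univ]
      refine Finset.sum_congr rfl fun A _ => ?_
      rw [Finset.prod_mul_distrib, ptn_chi_prod]
    rw [Finset.sum_congr rfl fun θ _ => h2 θ, Finset.sum_comm]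
    exact Finset.sum_congr rfl fun A _ => (Finset.mul_sum _ _ _).symm
  have hone : chi (1 : K) = 1 := by
    unfold chi
    simp
  have h3 : ∀ A : Finset k, (if A = ∅ then (Fintype.card K : ℝ) else 0) -
      11 * A.card * √(Fintype.card K : ℝ) ≤
      (∏ x ∈ A, ε x) * ∑ θ : K, chi (∏ x ∈ A, (algebraMap k K x - θ)) := by
    intro A
    rcases A.eq_empty_or_nonempty with h | h
    · subst h
      simp [hone]
    · rw [if_neg h.ne_empty]
      have h4 := ptn_char hK hQ A h
      have h5 : |∏ x ∈ A, ε x| = 1 := by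
        rw [Finset.abs_prod]
        refine Finset.prod_eq_one fun x _ => ?_
        rcases hε x with h6 | h6 <;> rw [h6] <;> simp
      have h6 : |(∏ x ∈ A, ε x) * ∑ θ : K, chi (∏ x ∈ A, (algebraMap k K x - θ))| ≤
          11 * A.card * √(Fintype.card K : ℝ) := by
        rw [abs_mul, h5, one_mul]
        exact h4
      have h7 := (abs_le.1 h6).1
      linarith
  have h4 := Finset.sum_le_sum fun A (_ : A ∈ (Finset.univ : Finset (Finset k))) => h3 A
  rw [Finset.sum_sub_distrib, Finset.sum_ite_eq' Finset.univ (∅ : Finset k), if_pos (Finset.mem_univ _)] at h4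
  have h5 : ∑ A : Finset k, 11 * (A.card : ℝ) * √(Fintype.card K : ℝ) =
      11 * (Fintype.card k * 2 ^ Fintype.card k / 2) * √(Fintype.card K : ℝ) := by
    rw [← Finset.sum_mul, ← Finset.mul_sum, ptn_sum_card]
  rw [h1]
  linarith

private theorem ptn_upper (ε : k → ℝ) (hε : ∀ x, ε x = 1 ∨ ε x = -1) :
    ∑ θ : K, ∏ x : k, (1 + ε x * chi (algebraMap k K x - θ)) ≤
      2 ^ Fintype.card k * ((Finset.univ.filter fun θ : K =>
        ∀ x : k, chi (algebraMap k K x - θ) = ε x).card : ℝ) +
        2 ^ Fintype.card k / 2 * Fintype.card k := by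
  classical
  have hfac : ∀ (θ : K) (x : k), 0 ≤ 1 + ε x * chi (algebraMap k K x - θ) ∧
      1 + ε x * chi (algebraMap k K x - θ) ≤ 2 := by
    intro θ x
    have h1 := abs_le.1 (ptn_chi_le (algebraMap k K x - θ))
    rcases hε x with h2 | h2 <;> rw [h2] <;> constructor <;> linarith [h1.1, h1.2]
  have hq : 0 < Fintype.card k := Fintype.card_pos
  have hpow : (2 : ℝ) ^ (Fintype.card k - 1) = 2 ^ Fintype.card k / 2 := by
    obtain ⟨n, hn⟩ := Nat.exists_eq_succ_of_ne_zero hq.ne'
    rw [hn, Nat.succ_sub_one, Nat.succ_eq_add_one, pow_succ]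
    ring
  have hall : ∀ (θ : K) (s : Finset k), ∏ x ∈ s, (1 + ε x * chi (algebraMap k K x - θ)) ≤ 2 ^ s.card := by
    intro θ s
    rw [← Finset.prod_const]
    exact Finset.prod_le_prod (fun x _ => (hfac θ x).1) fun x _ => (hfac θ x).2
  have hp2 : (0 : ℝ) < 2 ^ Fintype.card k := by positivity
  have h1 : ∀ θ : K, ∏ x : k, (1 + ε x * chi (algebraMap k K x - θ)) ≤
      2 ^ Fintype.card k * (if ∀ x : k, chi (algebraMap k K x - θ) = ε x then 1 else 0) +
        2 ^ Fintype.card k / 2 * (if θ ∈ Finset.univ.image (algebraMap k K) then 1 else 0) := by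
    intro θ
    by_cases hr : θ ∈ Finset.univ.image (algebraMap k K)
    · rw [if_pos hr]
      obtain ⟨y, -, hy⟩ := Finset.mem_image.1 hr
      have h2 : ∏ x : k, (1 + ε x * chi (algebraMap k K x - θ)) ≤ 2 ^ Fintype.card k / 2 := by
        rw [← Finset.mul_prod_erase Finset.univ _ (Finset.mem_univ y)]
        have h3 : 1 + ε y * chi (algebraMap k K y - θ) = 1 := by
          rw [hy, sub_self, chi_zero, mul_zero, add_zero]
        rw [h3, one_mul]
        refine (hall θ _).trans (le_of_eq ?_)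
        rw [Finset.card_erase_of_mem (Finset.mem_univ y), Finset.card_univ, hpow]
      have h4 : (0 : ℝ) ≤ 2 ^ Fintype.card k *
          (if ∀ x : k, chi (algebraMap k K x - θ) = ε x then 1 else 0) := by
        refine mul_nonneg hp2.le ?_
        split_ifs <;> norm_num
      linarith
    · rw [if_neg hr, mul_zero, add_zero]
      by_cases hg : ∀ x : k, chi (algebraMap k K x - θ) = ε x
      · rw [if_pos hg, mul_one]
        exact hall θ _
      · rw [if_neg hg, mul_zero]
        push Not at hg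
        obtain ⟨x, hx⟩ := hg
        have hne : algebraMap k K x - θ ≠ 0 := by
          intro h0
          exact hr (Finset.mem_image.2 ⟨x, Finset.mem_univ _, sub_eq_zero.1 h0⟩)
        refine le_of_eq (Finset.prod_eq_zero (Finset.mem_univ x) ?_)
        rcases ptn_chi_cases hne with h2 | h2 <;> rcases hε x with h3 | h3
        · exact absurd (h2.trans h3.symm) hx
        · rw [h2, h3]
          norm_num
        · rw [h2, h3]
          norm_num
        · exact absurd (h2.trans h3.symm) hx
  refine (Finset.sum_le_sum fun θ _ => h1 θ).trans ?_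
  rw [Finset.sum_add_distrib, ← Finset.mul_sum, ← Finset.mul_sum, Finset.sum_boole, Finset.sum_boole]
  have h2 : ((Finset.univ.filter fun θ : K => θ ∈ Finset.univ.image (algebraMap k K)).card : ℝ) ≤
      Fintype.card k := by
    have h3 : (Finset.univ.filter fun θ : K => θ ∈ Finset.univ.image (algebraMap k K)).card ≤
        Fintype.card k := by
      refine (Finset.card_le_card (t := Finset.univ.image (algebraMap k K)) fun θ hθ =>
        (Finset.mem_filter.1 hθ).2).trans ?_
      exact Finset.card_image_le.trans (le_of_eq Finset.card_univ)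
    exact_mod_cast h3
  have h4 := mul_le_mul_of_nonneg_left h2 (show (0 : ℝ) ≤ 2 ^ Fintype.card k / 2 by positivity)
  refine add_le_add (le_of_eq ?_) h4
  congr!

private theorem ptn_main (hk : ringChar k ≠ 2) (D : ℕ) (hfr : Module.finrank k K = D)
    (hbig : (2 : ℝ) ^ Fintype.card k * (6 * Fintype.card k + 2) < √((Fintype.card k : ℝ) ^ D))
    (ε : k → ℝ) (hε : ∀ x, ε x = 1 ∨ ε x = -1) :
    ∃ f : k[X], f.Monic ∧ f.natDegree = D ∧ Irreducible f ∧ ∀ x, chi (f.eval x) = ε x := by
  classical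
  have hcard : Fintype.card K = Fintype.card k ^ D := by
    rw [Module.card_eq_pow_finrank (K := k) (V := K), hfr]
  have hK : ringChar K ≠ 2 := by
    rw [← Algebra.ringChar_eq k K]
    exact hk
  have hp : (ringChar k).Prime := CharP.char_is_prime k (ringChar k)
  obtain ⟨s, hs⟩ : ∃ s : ℝ, s = √(Fintype.card K : ℝ) := ⟨_, rfl⟩
  have hQ0 : (0 : ℝ) ≤ (Fintype.card K : ℝ) := Nat.cast_nonneg _
  have hs2 : s * s = Fintype.card K := by
    rw [hs]
    exact Real.mul_self_sqrt hQ0
  have hs0 : 0 ≤ s := by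
    rw [hs]
    exact Real.sqrt_nonneg _
  obtain ⟨T, hT⟩ : ∃ T : ℝ, T = (2 : ℝ) ^ Fintype.card k := ⟨_, rfl⟩
  obtain ⟨q, hq⟩ : ∃ q : ℝ, q = (Fintype.card k : ℝ) := ⟨_, rfl⟩
  have hb : T * (6 * q + 2) < s := by
    rw [hT, hq, hs, hcard]
    push_cast
    exact hbig
  have hq2 : 2 < Fintype.card k := by
    have h1 : 1 < Fintype.card k := Fintype.one_lt_card
    have h2 : Fintype.card k ≠ 2 := by
      intro h2
      apply hk
      have h3 : (2 : k) = 0 := by
        have := FiniteField.cast_card_eq_zero k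
        rw [h2] at this
        exact_mod_cast this
      have h4 : ringChar k ∣ 2 := by
        rw [← CharP.cast_eq_zero_iff k (ringChar k)]
        exact_mod_cast h3
      exact (Nat.prime_dvd_prime_iff_eq hp Nat.prime_two).1 h4
    omega
  have hq3 : (3 : ℝ) ≤ q := by
    rw [hq]
    exact_mod_cast hq2
  have hT8 : 8 ≤ T := by
    rw [hT]
    calc (8 : ℝ) = 2 ^ 3 := by norm_num
      _ ≤ 2 ^ Fintype.card k := pow_le_pow_right₀ (by norm_num) hq2
  have hs8 : 8 * (q + 1) ≤ s := by
    have h1 : 8 * (6 * q + 2) ≤ T * (6 * q + 2) := mul_le_mul_of_nonneg_right hT8 (by linarith)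
    linarith
  have hQ : 64 * (Fintype.card k + 1) ^ 2 ≤ Fintype.card K := by
    have h1 : (8 * (q + 1)) * (8 * (q + 1)) ≤ s * s := mul_self_le_mul_self (by linarith) hs8
    have h2 : (64 * ((Fintype.card k : ℝ) + 1) ^ 2) ≤ (Fintype.card K : ℝ) := by
      rw [← hs2, ← hq]
      linarith
    exact_mod_cast h2
  have hlow := ptn_lower (k := k) (K := K) hK hQ ε hε
  have hup := ptn_upper (K := K) ε hε
  obtain ⟨G, hG⟩ : ∃ G : Finset K, G = Finset.univ.filter fun θ : K =>
      ∀ x : k, chi (algebraMap k K x - θ) = ε x := ⟨_, rfl⟩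
  rw [← hs, ← hT, ← hq, ← hs2] at hlow
  rw [← hG, ← hT, ← hq] at hup
  have hs1 : 1 ≤ s := by linarith
  have hGbig : 2 * s < G.card := by
    by_contra hcon
    push Not at hcon
    have h1 : T * (G.card : ℝ) ≤ T * (2 * s) := mul_le_mul_of_nonneg_left hcon (by linarith)
    have h2 : T / 2 * q ≤ T / 2 * q * s := by
      have h3 : 0 ≤ T / 2 * q := by positivity
      nlinarith
    have h3 : s * s ≤ T * (6 * q + 2) * s := by
      have h4 := hlow.trans hup
      nlinarith
    have h4 : T * (6 * q + 2) * s < s * s := mul_lt_mul_of_pos_right hb (by linarith)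
    linarith
  have hsmall := card_small (k := k) (K := K)
  rw [← hs, hfr] at hsmall
  have hex : ∃ θ ∈ G, (minpoly k θ).natDegree = D := by
    by_contra hcon
    push Not at hcon
    have h1 : G.card ≤ (Finset.univ.filter fun θ : K => (minpoly k θ).natDegree ≠ D).card :=
      Finset.card_le_card fun θ hθ => Finset.mem_filter.2 ⟨Finset.mem_univ _, hcon θ hθ⟩
    have h2 : (G.card : ℝ) ≤ ((Finset.univ.filter fun θ : K => (minpoly k θ).natDegree ≠ D).card : ℝ) := by
      exact_mod_cast h1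
    linarith
  obtain ⟨θ, hθG, hθ⟩ := hex
  rw [hG, Finset.mem_filter] at hθG
  have hint : IsIntegral k θ := Algebra.IsIntegral.isIntegral θ
  refine ⟨minpoly k θ, minpoly.monic hint, hθ, minpoly.irreducible hint, fun x => ?_⟩
  have h1 := char_minpoly hk θ (by rw [hfr]; exact hθ) x
  have h2 := hθG.2 x
  unfold chi at h2 ⊢
  rw [h1]
  exact h2

end

theorem exists_irred_pattern (k : Type) [Field k] [Fintype k] [DecidableEq k]
    (hk : ringChar k ≠ 2) (D : ℕ) (hD : 2 ≤ D)
    (hbig : (2 : ℝ) ^ Fintype.card k * (6 * Fintype.card k + 2) < √((Fintype.card k : ℝ) ^ D))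
    (ε : k → ℝ) (hε : ∀ x, ε x = 1 ∨ ε x = -1) :
    ∃ f : k[X], f.Monic ∧ f.natDegree = D ∧ Irreducible f ∧ ∀ x, chi (f.eval x) = ε x := by
  classical
  have : NeZero D := ⟨by omega⟩
  have hp : Fact (ringChar k).Prime := ⟨CharP.char_is_prime k (ringChar k)⟩
  have : Fintype (FiniteField.Extension k (ringChar k) D) := Fintype.ofFinite _
  exact ptn_main (K := FiniteField.Extension k (ringChar k) D) hk D
    (FiniteField.finrank_extension k (ringChar k) D) hbig ε hε

end Pool.Agent.H45.WB
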