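import Pool.Agent.H45.WB.HasA
import Pool.Agent.H45.WB.HasB
import Pool.Agent.H45.WB.Lin
import Pool.Agent.H45.WB.NonV

/-!
# Stepanov's method

PROOF. `Q = card K`, `m = f.natDegree`, `a = 1` or `-1` in `K`, `S` the set of the `x` with
`(f.eval x) ^ (Q / 2) = a`; `f.eval x ≠ 0` on `S`. Let `l ≤ Q`, `B`, `J` with
`l (B + l m + J) < 2 J B` and `2 B + m ≤ Q`. For `i < l` let `P i` be the linear map of `hasse_lin` for
`n = l` and `T i` the one for `n = l + Q / 2` (`i ≤ l`), `S i = a • T i`. With `E = B + l m`: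
`natDegree (P i r) ≤ natDegree r + i (m - 1) < E` if `degree r < B` (`B ≥ 1`). `exists_aux` gives `r`, `s`, and
`R = ∑ j, (f ^ l * r j + f ^ (l + Q / 2) * s j) * X ^ (j Q) = f ^ l * ∑ j, (r j + s j * f ^ (Q / 2)) * X ^ (j Q)`,
nonzero by `nonvanish`. For `x ∈ S`, `i < l ≤ Q`: by `hasse_mul_card` and `hasse_lin`,
`hasseDeriv i R = ∑ j, (f ^ (l - i) * P i (r j) + f ^ (l + Q / 2 - i) * T i (s j)) * X ^ (j Q)`, and at `x`, with
`f(x) ^ (l + Q / 2 - i) = a f(x) ^ (l - i)` and `x ^ Q = x` (`FiniteField.pow_card`) this is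
`f(x) ^ (l - i) * (∑ j, (P i (r j) + a • T i (s j)) * X ^ j).eval x = 0`. So `(X - C x) ^ l ∣ R`
(`dvd_of_hasse`) for all `x ∈ S`, these are pairwise coprime, so `l |S| ≤ natDegree R`
(`Finset.prod_dvd_of_coprime`) and `natDegree R ≤ l m + B + (Q / 2) m + J Q` (the last summand has
`j ≤ J - 1`; a crude bound is enough).
-/

namespace Pool.Agent.H45.WB

open Finset Polynomial

variable {K : Type} [Field K] [Fintype K] [DecidableEq K]

theorem stepanov (hodd : Odd (Fintype.card K)) (f : K[X]) (hf : Squarefree f)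
    (hm : 1 ≤ f.natDegree) (h0 : f.eval 0 ≠ 0) (a : K) (ha : a = 1 ∨ a = -1) (B J l : ℕ) (hB1 : 1 ≤ B)
    (hB : 2 * B + f.natDegree ≤ Fintype.card K) (hl : l ≤ Fintype.card K)
    (hc : l * (B + l * f.natDegree + J) < 2 * J * B) :
    l * (Finset.univ.filter fun x : K => (f.eval x) ^ (Fintype.card K / 2) = a).card ≤
      l * f.natDegree + B + Fintype.card K / 2 * f.natDegree + J * Fintype.card K := by
  have hP' : ∀ i : ℕ, ∃ P : K[X] →ₗ[K] K[X], i ≤ l →
      ((∀ r, hasseDeriv i (f ^ l * r) = f ^ (l - i) * P r) ∧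
        ∀ r, (P r).natDegree ≤ r.natDegree + i * (f.natDegree - 1)) := by
    intro i
    by_cases hi : i ≤ l
    · obtain ⟨P, hP⟩ := hasse_lin f f.natDegree hm le_rfl l i hi
      exact ⟨P, fun _ => hP⟩
    · exact ⟨0, fun h => absurd h hi⟩
  have hT' : ∀ i : ℕ, ∃ P : K[X] →ₗ[K] K[X], i ≤ l →
      ((∀ r, hasseDeriv i (f ^ (l + Fintype.card K / 2) * r) =
        f ^ (l + Fintype.card K / 2 - i) * P r) ∧
        ∀ r, (P r).natDegree ≤ r.natDegree + i * (f.natDegree - 1)) := by
    intro i
    by_cases hi : i ≤ l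
    · obtain ⟨P, hP⟩ := hasse_lin f f.natDegree hm le_rfl (l + Fintype.card K / 2) i (by omega)
      exact ⟨P, fun _ => hP⟩
    · exact ⟨0, fun h => absurd h hi⟩
  choose P hP using hP'
  choose T hT using hT'
  have hdeg : ∀ (i : ℕ) (U : K[X] →ₗ[K] K[X]), i < l →
      (∀ r, (U r).natDegree ≤ r.natDegree + i * (f.natDegree - 1)) → ∀ r : K[X],
      r.degree < (B : WithBot ℕ) → (U r).natDegree < B + l * f.natDegree := by
    intro i U hi hU r hr
    have h1 : r.natDegree < B := by
      rcases eq_or_ne r 0 with h | h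
      · rw [h, natDegree_zero]
        exact hB1
      · exact (natDegree_lt_iff_degree_lt h).2 hr
    have h2 := hU r
    have h3 : i * (f.natDegree - 1) ≤ l * f.natDegree :=
      Nat.mul_le_mul hi.le (Nat.sub_le _ _)
    omega
  obtain ⟨r, s, hrs, hne, hz⟩ := exists_aux B J l (B + l * f.natDegree) P (fun i => a • T i)
    (fun i hi r hr => by
      have h1 := hdeg i (P i) hi (hP i hi.le).2 r hr
      exact lt_of_le_of_lt degree_le_natDegree (by exact_mod_cast h1))
    (fun i hi r hr => by
      have h1 := hdeg i (T i) hi (hT i hi.le).2 r hr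
      have h2 : ((a • T i) r).natDegree ≤ (T i r).natDegree := by
        rw [LinearMap.smul_apply]
        exact natDegree_smul_le _ _
      exact lt_of_le_of_lt degree_le_natDegree (by exact_mod_cast lt_of_le_of_lt h2 h1)) hc
  set R : K[X] := ∑ j : Fin J, (f ^ l * r j + f ^ (l + Fintype.card K / 2) * s j) *
    X ^ ((j : ℕ) * Fintype.card K) with hR
  have hf0 : f ≠ 0 := by
    rintro rfl
    simp at hm
  have hR0 : R ≠ 0 := by
    intro h
    have h1 : R = f ^ l * ∑ j : Fin J, (r j + s j * f ^ (Fintype.card K / 2)) *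
        X ^ ((j : ℕ) * Fintype.card K) := by
      rw [hR, mul_sum]
      refine sum_congr rfl fun j _ => ?_
      rw [pow_add]
      ring
    rw [h1] at h
    rcases mul_eq_zero.1 h with h2 | h2
    · exact pow_ne_zero l hf0 h2
    · have h3 := nonvanish hodd f hf hm h0 B J hB r s hrs h2
      obtain ⟨j, hj⟩ := hne
      rcases hj with hj | hj
      · exact hj (h3 j).1
      · exact hj (h3 j).2
  have hval : ∀ x : K, (f.eval x) ^ (Fintype.card K / 2) = a → ∀ i, i < l →
      (hasseDeriv i R).eval x = 0 := by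
    intro x hx i hi
    have h1 : hasseDeriv i R = ∑ j : Fin J, (f ^ (l - i) * P i (r j) +
        f ^ (l + Fintype.card K / 2 - i) * T i (s j)) * X ^ ((j : ℕ) * Fintype.card K) := by
      rw [hR, map_sum]
      refine sum_congr rfl fun j _ => ?_
      rw [hasse_mul_card _ i j (by omega), map_add, (hP i hi.le).1, (hT i hi.le).1]
    have h2 : (∑ j : Fin J, (P i (r j) + (a • T i) (s j)) * X ^ (j : ℕ)).eval x = 0 := by
      rw [hz i hi, eval_zero]
    rw [eval_finsetSum] at h2
    rw [h1, eval_finsetSum]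
    calc ∑ j : Fin J, ((f ^ (l - i) * P i (r j) +
          f ^ (l + Fintype.card K / 2 - i) * T i (s j)) * X ^ ((j : ℕ) * Fintype.card K)).eval x
        = (f.eval x) ^ (l - i) *
          ∑ j : Fin J, ((P i (r j) + (a • T i) (s j)) * X ^ (j : ℕ)).eval x := by
          rw [mul_sum]
          refine sum_congr rfl fun j _ => ?_
          have e1 : x ^ ((j : ℕ) * Fintype.card K) = x ^ (j : ℕ) := by
            rw [mul_comm, pow_mul, FiniteField.pow_card]
          have e2 : (f.eval x) ^ (l + Fintype.card K / 2 - i) = (f.eval x) ^ (l - i) * a := by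
            rw [show l + Fintype.card K / 2 - i = (l - i) + Fintype.card K / 2 by omega, pow_add, hx]
          rw [eval_mul, eval_add, eval_mul, eval_mul, eval_pow, eval_pow, eval_pow, eval_X, e1, e2,
            eval_mul, eval_add, eval_pow, eval_X, LinearMap.smul_apply, eval_smul, smul_eq_mul]
          ring
      _ = 0 := by rw [h2, mul_zero]
  have hdvd : ∏ x ∈ Finset.univ.filter (fun x : K => (f.eval x) ^ (Fintype.card K / 2) = a),
      (X - C x) ^ l ∣ R := by
    refine Finset.prod_dvd_of_coprime ?_ ?_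
    · intro x _ y _ hxy
      exact ((pairwise_coprime_X_sub_C (s := fun z : K => z) Function.injective_id hxy)).pow
    · intro x hx
      exact dvd_of_hasse R x l (hval x (Finset.mem_filter.1 hx).2)
  have hdR : R.natDegree ≤
      l * f.natDegree + B + Fintype.card K / 2 * f.natDegree + J * Fintype.card K := by
    rw [hR]
    refine natDegree_sum_le_of_forall_le _ _ fun j _ => ?_
    have hr1 : (r j).natDegree ≤ B := natDegree_le_of_degree_le (hrs j).1.le
    have hs1 : (s j).natDegree ≤ B := natDegree_le_of_degree_le (hrs j).2.le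
    have h1 : (f ^ l * r j).natDegree ≤ (l + Fintype.card K / 2) * f.natDegree + B := by
      refine natDegree_mul_le.trans ?_
      have h2 : (f ^ l).natDegree ≤ l * f.natDegree := natDegree_pow_le_of_le l le_rfl
      have h3 : l * f.natDegree ≤ (l + Fintype.card K / 2) * f.natDegree :=
        Nat.mul_le_mul_right _ (Nat.le_add_right _ _)
      omega
    have h2 : (f ^ (l + Fintype.card K / 2) * s j).natDegree ≤
        (l + Fintype.card K / 2) * f.natDegree + B := by
      refine natDegree_mul_le.trans ?_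
      have h2 : (f ^ (l + Fintype.card K / 2)).natDegree ≤ (l + Fintype.card K / 2) * f.natDegree :=
        natDegree_pow_le_of_le _ le_rfl
      omega
    have h3 : ((f ^ l * r j + f ^ (l + Fintype.card K / 2) * s j) *
        X ^ ((j : ℕ) * Fintype.card K)).natDegree ≤
        (l + Fintype.card K / 2) * f.natDegree + B + (j : ℕ) * Fintype.card K := by
      refine natDegree_mul_le.trans (Nat.add_le_add ?_ (natDegree_X_pow_le _))
      exact natDegree_add_le_of_degree_le h1 h2
    have h4 : (j : ℕ) * Fintype.card K ≤ J * Fintype.card K := Nat.mul_le_mul_right _ j.2.le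
    have h5 : (l + Fintype.card K / 2) * f.natDegree =
        l * f.natDegree + Fintype.card K / 2 * f.natDegree := by ring
    omega
  have hcard : (∏ x ∈ Finset.univ.filter (fun x : K => (f.eval x) ^ (Fintype.card K / 2) = a),
      (X - C x) ^ l).natDegree =
      l * (Finset.univ.filter fun x : K => (f.eval x) ^ (Fintype.card K / 2) = a).card := by
    rw [Finset.prod_pow, natDegree_pow, natDegree_finsetProd_X_sub_C_eq_card]
  rw [← hcard]
  exact (natDegree_le_of_dvd hdvd hR0).trans hdR

end Pool.Agent.H45.WB
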